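import Pool.Agent.Lib.P901b45e.Excess

/-!
Integral points of a base polytope on a given level of a set (MP_901b45_co).
-/

set_option autoImplicit false

namespace Pool.Agent.P901b45z

open Finset

variable {α : Type*} [DecidableEq α]

/-- a point of the base polytope at which `S` is tight -/
theorem exists_top {Y S : Finset α} {f : Finset α → ℤ} (h0 : f ∅ = 0)
    (hsub : ∀ X ⊆ Y, ∀ Z ⊆ Y, f (X ∪ Z) + f (X ∩ Z) ≤ f X + f Z) (hS : S ⊆ Y) :
    ∃ u : α → ℤ, (∀ T ⊆ Y, ∑ e ∈ T, u e ≤ f T) ∧ ∑ e ∈ Y, u e = f Y ∧ ∑ e ∈ S, u e = f S := by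
  obtain ⟨x, a1, a2, -⟩ := P901b45e.greedy h0 S
    (fun A hA B hB => hsub A (hA.trans hS) B (hB.trans hS))
  obtain ⟨y, b1, b2, -⟩ := P901b45e.greedy (h := fun T => f (S ∪ T) - f S) (by simp) (Y \ S) (by
    intro A hA B hB
    have h1 := hsub (S ∪ A) (union_subset hS (hA.trans sdiff_subset)) (S ∪ B)
      (union_subset hS (hB.trans sdiff_subset))
    have e1 : (S ∪ A) ∪ (S ∪ B) = S ∪ (A ∪ B) := by
      ext e; simp only [mem_union]; tauto
    have e2 : (S ∪ A) ∩ (S ∪ B) = S ∪ (A ∩ B) := by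
      ext e; simp only [mem_union, mem_inter]; tauto
    rw [e1, e2] at h1
    show f (S ∪ (A ∪ B)) - f S + (f (S ∪ (A ∩ B)) - f S) ≤ f (S ∪ A) - f S + (f (S ∪ B) - f S)
    linarith)
  have hsum : ∀ A : Finset α, ∑ e ∈ A, (if e ∈ S then x e else y e) =
      ∑ e ∈ A ∩ S, x e + ∑ e ∈ A \ S, y e := by
    intro A
    rw [← Finset.sum_inter_add_sum_sdiff A S (fun e => if e ∈ S then x e else y e)]
    congr 1
    · exact Finset.sum_congr rfl (fun e he => by simp [(mem_inter.1 he).2])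
    · exact Finset.sum_congr rfl (fun e he => by simp [(mem_sdiff.1 he).2])
  refine ⟨fun e => if e ∈ S then x e else y e, ?_, ?_, ?_⟩
  · intro T hT
    have h1 := a1 (T ∩ S) inter_subset_right
    have h2 : ∑ e ∈ T \ S, y e ≤ f (S ∪ (T \ S)) - f S :=
      b1 (T \ S) (sdiff_subset_sdiff hT (Subset.refl _))
    have h3 := hsub T hT S hS
    have e1 : T ∪ S = S ∪ (T \ S) := by
      ext e; simp only [mem_union, mem_sdiff]; tauto
    rw [e1] at h3
    rw [hsum]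
    linarith
  · have h2 : ∑ e ∈ Y \ S, y e = f (S ∪ (Y \ S)) - f S := b2
    rw [union_sdiff_of_subset hS] at h2
    rw [hsum, inter_eq_right.2 hS, a2, h2]
    ring
  · rw [hsum, inter_self, sdiff_self, a2, bot_eq_empty, sum_empty, add_zero]

theorem tight_lat {Y : Finset α} {f : Finset α → ℤ}
    (hsub : ∀ X ⊆ Y, ∀ Z ⊆ Y, f (X ∪ Z) + f (X ∩ Z) ≤ f X + f Z) {u : α → ℤ}
    (hu : ∀ T ⊆ Y, ∑ e ∈ T, u e ≤ f T) {X Z : Finset α} (hX : X ⊆ Y) (hZ : Z ⊆ Y)
    (h1 : ∑ e ∈ X, u e = f X) (h2 : ∑ e ∈ Z, u e = f Z) :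
    ∑ e ∈ X ∪ Z, u e = f (X ∪ Z) ∧ ∑ e ∈ X ∩ Z, u e = f (X ∩ Z) := by
  have h3 := hu _ (union_subset hX hZ)
  have h4 := hu _ (inter_subset_left.trans hX : X ∩ Z ⊆ Y)
  have h5 := hsub X hX Z hZ
  have h6 := Finset.sum_union_inter (s₁ := X) (s₂ := Z) (f := u)
  constructor <;> linarith

/-- a base polytope has integral points on every level between the extreme ones -/
theorem exists_level {Y S : Finset α} {f : Finset α → ℤ} (h0 : f ∅ = 0)
    (hsub : ∀ X ⊆ Y, ∀ Z ⊆ Y, f (X ∪ Z) + f (X ∩ Z) ≤ f X + f Z) (hS : S ⊆ Y) {s : ℤ}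
    (h1 : f Y - f (Y \ S) ≤ s) (h2 : s ≤ f S) :
    ∃ u : α → ℤ, (∀ T ⊆ Y, ∑ e ∈ T, u e ≤ f T) ∧ ∑ e ∈ Y, u e = f Y ∧ ∑ e ∈ S, u e = s := by
  classical
  obtain ⟨u0, c1, c2, c3⟩ := exists_top h0 hsub hS
  let Q : (α → ℤ) → Prop := fun u => (∀ T ⊆ Y, ∑ e ∈ T, u e ≤ f T) ∧ ∑ e ∈ Y, u e = f Y ∧
    s ≤ ∑ e ∈ S, u e
  have hex : ∃ m : ℕ, ∃ u, Q u ∧ (∑ e ∈ S, u e - s).toNat = m :=
    ⟨_, u0, ⟨c1, c2, by rw [c3]; exact h2⟩, rfl⟩
  obtain ⟨u, ⟨hu, hY, hs⟩, hum⟩ := Nat.find_spec hex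
  refine ⟨u, hu, hY, ?_⟩
  by_contra hne
  have hlt : s < ∑ e ∈ S, u e := lt_of_le_of_ne hs (Ne.symm hne)
  have hblock : ∀ a ∈ S, ∀ b ∈ Y \ S, ∃ D ⊆ Y, ∑ e ∈ D, u e = f D ∧ b ∈ D ∧ a ∉ D := by
    intro a ha b hb
    by_contra hcon
    push Not at hcon
    have hb' := mem_sdiff.1 hb
    have hab : b ≠ a := fun h => hb'.2 (h ▸ ha)
    let w : α → ℤ := fun e => (if e = b then 1 else 0) - (if e = a then 1 else 0)
    have hw : ∀ T : Finset α, ∑ e ∈ T, (u e + w e) = ∑ e ∈ T, u e +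
        ((if b ∈ T then 1 else 0) - (if a ∈ T then 1 else 0)) := by
      intro T
      rw [sum_add_distrib, sum_sub_distrib, Finset.sum_ite_eq', Finset.sum_ite_eq']
    have hQ : Q (fun e => u e + w e) := by
      refine ⟨?_, ?_, ?_⟩
      · intro T hT
        show ∑ e ∈ T, (u e + w e) ≤ f T
        rw [hw]
        have h3 := hu T hT
        by_cases hbT : b ∈ T
        · by_cases haT : a ∈ T
          · rw [if_pos hbT, if_pos haT]; linarith
          · rw [if_pos hbT, if_neg haT]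
            have h4 : ∑ e ∈ T, u e ≠ f T := fun h5 => haT (hcon T hT h5 hbT)
            omega
        · by_cases haT : a ∈ T
          · rw [if_neg hbT, if_pos haT]; linarith
          · rw [if_neg hbT, if_neg haT]; linarith
      · show ∑ e ∈ Y, (u e + w e) = f Y
        rw [hw, if_pos hb'.1, if_pos (hS ha), hY]; ring
      · show s ≤ ∑ e ∈ S, (u e + w e)
        rw [hw, if_neg hb'.2, if_pos ha]; omega
    have h3 := Nat.find_min' hex ⟨_, hQ, rfl⟩
    rw [← hum] at h3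
    have h4 : ∑ e ∈ S, (u e + w e) = ∑ e ∈ S, u e - 1 := by
      rw [hw, if_neg hb'.2, if_pos ha]; ring
    rw [h4] at h3
    omega
  -- for every `b` outside `S` there is a tight set that contains `b` and misses `S`
  have hmiss : ∀ b ∈ Y \ S, ∀ S' ⊆ S, ∃ D ⊆ Y, ∑ e ∈ D, u e = f D ∧ b ∈ D ∧ Disjoint D S' := by
    intro b hb S'
    induction S' using Finset.induction_on with
    | empty => intro _; exact ⟨Y, Subset.refl _, hY, (mem_sdiff.1 hb).1, disjoint_empty_right _⟩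
    | insert a S' _ ih =>
      intro hS'
      obtain ⟨D, hD, d1, d2, d3⟩ := ih ((subset_insert _ _).trans hS')
      obtain ⟨E, hE, e1, e2, e3⟩ := hblock a (hS' (mem_insert_self _ _)) b hb
      refine ⟨D ∩ E, inter_subset_left.trans hD, (tight_lat hsub hu hD hE d1 e1).2,
        mem_inter.2 ⟨d2, e2⟩, ?_⟩
      rw [disjoint_insert_right]
      exact ⟨fun h3 => e3 (mem_inter.1 h3).2, disjoint_of_subset_left inter_subset_left d3⟩
  have hall : ∀ B ⊆ Y \ S, ∃ D ⊆ Y, ∑ e ∈ D, u e = f D ∧ B ⊆ D ∧ Disjoint D S := by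
    intro B
    induction B using Finset.induction_on with
    | empty => intro _; exact ⟨∅, empty_subset _, by rw [sum_empty, h0], Subset.refl _,
        disjoint_empty_left _⟩
    | insert b B _ ih =>
      intro hB
      obtain ⟨D, hD, d1, d2, d3⟩ := ih ((subset_insert _ _).trans hB)
      obtain ⟨E, hE, e1, e2, e3⟩ := hmiss b (hB (mem_insert_self _ _)) S (Subset.refl _)
      refine ⟨D ∪ E, union_subset hD hE, (tight_lat hsub hu hD hE d1 e1).1, ?_,
        disjoint_union_left.2 ⟨d3, e3⟩⟩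
      intro y hy
      rcases mem_insert.1 hy with h3 | h3
      · exact mem_union_right _ (h3 ▸ e2)
      · exact mem_union_left _ (d2 h3)
  obtain ⟨D, hD, d1, d2, d3⟩ := hall (Y \ S) (Subset.refl _)
  have hDe : D = Y \ S := by
    apply Subset.antisymm
    · intro y hy
      exact mem_sdiff.2 ⟨hD hy, fun h3 => (disjoint_left.1 d3) hy h3⟩
    · exact d2
  rw [hDe] at d1
  have h4 := Finset.sum_sdiff hS (f := u)
  linarith

end Pool.Agent.P901b45z
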