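import Pool.Agent.Lib.P901b45z.Base
import Pool.Agent.Lib.P901b45z.Level

/-!
Slices with value zero that are not products (MP_901b45_co).
-/

set_option autoImplicit false

namespace Pool.Agent.P901b45z

open Finset Pool.Agent.P901b45e Pool.Agent.P901b45d Pool.Agent.P901b45k

variable {α : Type*} [DecidableEq α] {G : Finset α} {h : Finset α → ℤ}

/-- lower bounds for the complements -/
theorem Cut0.nn_le (hh : Sub G h) (hG : h G = 0) {A : Finset α} (hc : Cut0 G h A) {S : Finset α}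
    (hS : S ⊆ A) : nn G h A S ≤ h (A \ S) ∧ nn G h A S ≤ h (G \ S) := by
  have hA := hc.sub
  have e0 : G \ G = ∅ := by ext e; simp
  have key : ∀ T ⊆ A, min (h (G \ T)) (h (A \ T)) ≤ h T ∧
      min (h (G \ T)) (h (A \ T)) ≤ h (G \ (A \ T)) := by
    intro T hT
    have hTG : T ⊆ G := hT.trans hA
    constructor
    · have h1 := hc.all T hTG
      have e1 : T ∩ A = T := inter_eq_left.2 hT
      have e2 : T ∪ A = A := union_eq_right.2 hT
      have e3 : T \ A = ∅ := sdiff_eq_empty_iff_subset.2 hT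
      rw [e1, e2, e3, sdiff_empty, hG, zero_add] at h1
      have h2 := hh.nonneg (G \ A) sdiff_subset
      refine le_trans (le_min (min_le_left _ _) (le_min ?_ (min_le_right _ _))) h1
      have := min_le_left (h (G \ T)) (h (A \ T))
      linarith
    · have hsub : G \ (A \ T) ⊆ G := sdiff_subset
      have h1 := hc.all (G \ (A \ T)) hsub
      have e1 : G \ (G \ (A \ T)) = A \ T := by
        ext e; simp only [mem_sdiff]
        constructor
        · rintro ⟨h3, h4⟩; by_contra h5; exact h4 ⟨h3, h5⟩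
        · rintro ⟨h3, h4⟩; exact ⟨hA h3, fun h5 => h5.2 ⟨h3, h4⟩⟩
      have e2 : (G \ (A \ T)) ∩ A = T := by
        ext e; simp only [mem_sdiff, mem_inter]
        constructor
        · rintro ⟨⟨h3, h4⟩, h5⟩; by_contra h6; exact h4 ⟨h5, h6⟩
        · intro h3; exact ⟨⟨hTG h3, fun h4 => h4.2 h3⟩, hT h3⟩
      have e3 : (G \ (A \ T)) ∪ A = G := by
        ext e; simp only [mem_sdiff, mem_union]
        constructor
        · rintro (h3 | h3)
          · exact h3.1
          · exact hA h3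
        · intro h3
          by_cases h4 : e ∈ A
          · exact Or.inr h4
          · exact Or.inl ⟨h3, fun h5 => h4 h5.1⟩
      have e4 : A \ (G \ (A \ T)) = A \ T := by
        ext e; simp only [mem_sdiff]
        constructor
        · rintro ⟨h3, h4⟩
          refine ⟨h3, fun h5 => h4 ⟨hA h3, fun h6 => h6.2 h5⟩⟩
        · rintro ⟨h3, h4⟩; exact ⟨h3, fun h5 => h5.2 ⟨h3, h4⟩⟩
      rw [e1, e2, e3, e0, e4, hh.empty, add_zero] at h1
      have h2 := hh.nonneg (G \ ((G \ (A \ T)) \ A)) sdiff_subset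
      refine le_trans (le_min (min_le_right _ _) (le_min (min_le_left _ _) ?_)) h1
      have := min_le_right (h (G \ T)) (h (A \ T))
      linarith
  have h1 := key (A \ S) sdiff_subset
  have e1 : A \ (A \ S) = S := by
    rw [sdiff_sdiff_right_self]; exact inf_eq_right.2 hS
  rw [e1] at h1
  unfold nn
  rw [min_comm]
  exact h1

theorem Cut0.compl' {A : Finset α} (hc : Cut0 G h A) : Cut0 G h (G \ A) := by
  refine ⟨sdiff_subset, fun S hS => ?_⟩
  have hA := hc.sub
  have h1 := hc.all S hS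
  have e1 : S ∩ (G \ A) = S \ A := by
    ext e; simp only [mem_sdiff, mem_inter]
    constructor
    · rintro ⟨h3, _, h4⟩; exact ⟨h3, h4⟩
    · rintro ⟨h3, h4⟩; exact ⟨h3, hS h3, h4⟩
  have e2 : G \ (S ∪ (G \ A)) = A \ S := by
    ext e; simp only [mem_sdiff, mem_union]
    constructor
    · rintro ⟨h3, h4⟩
      refine ⟨?_, fun h5 => h4 (Or.inl h5)⟩
      by_contra h5; exact h4 (Or.inr ⟨h3, h5⟩)
    · rintro ⟨h3, h4⟩
      refine ⟨hA h3, ?_⟩
      rintro (h5 | h5)
      · exact h4 h5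
      · exact h5.2 h3
  have e3 : S \ (G \ A) = S ∩ A := by
    ext e; simp only [mem_sdiff, mem_inter]
    constructor
    · rintro ⟨h3, h4⟩; refine ⟨h3, ?_⟩; by_contra h5; exact h4 ⟨hS h3, h5⟩
    · rintro ⟨h3, h4⟩; exact ⟨h3, fun h5 => h5.2 h4⟩
  have e4 : (G \ A) \ S = G \ (S ∪ A) := by
    ext e; simp only [mem_sdiff, mem_union]; tauto
  rw [e1, e2, e3, e4]
  refine le_trans ?_ h1
  refine le_min (min_le_left _ _) (le_min ?_ ?_)
  · exact (min_le_right _ _).trans (min_le_right _ _)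
  · exact (min_le_right _ _).trans (min_le_left _ _)

/-- the window -/
structure Win (G : Finset α) (h : Finset α → ℤ) (A S R : Finset α) (s : ℤ) (u : α → ℤ) :
    Prop where
  le : ∀ T ⊆ G, ∑ e ∈ T, u e ≤ h T
  tot : ∑ e ∈ G, u e = 0
  y : ∑ e ∈ S ∪ R, u e = h (S ∪ R)
  lo : s ≤ ∑ e ∈ S, u e
  hi : ∑ e ∈ S, u e ≤ s + 1
  lo' : s ≤ -∑ e ∈ A \ S, u e
  hi' : -∑ e ∈ A \ S, u e ≤ s + 1

theorem sum_of {u : α → ℤ} {X P Q : Finset α} (h1 : ∀ e, e ∈ X ↔ (e ∈ P ∨ e ∈ Q))
    (h2 : ∀ e, e ∈ P → e ∉ Q) : ∑ e ∈ X, u e = ∑ e ∈ P, u e + ∑ e ∈ Q, u e := by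
  have h3 : X = P ∪ Q := by ext e; rw [mem_union]; exact h1 e
  rw [h3, sum_union (disjoint_left.2 fun e he => h2 e he)]

theorem Win.neg_le (hh : Sub G h) {A S R : Finset α} {s : ℤ}
    (hc : Cut0 G h A) (hS : S ⊆ A) (hR : R ⊆ G \ A) (hYc : h (G \ (S ∪ R)) = h (S ∪ R))
    (hs : s + 1 = nn G h A S) (hlt : h (S ∪ R) < nn G h A S + nn G h (G \ A) R)
    {u : α → ℤ} (hu : Win G h A S R s u) : ∀ T ⊆ G, -∑ e ∈ T, u e ≤ h T := by
  have hA := hc.sub
  have hSG : S ⊆ G := hS.trans hA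
  have hRG : R ⊆ G := hR.trans sdiff_subset
  have hYG : S ∪ R ⊆ G := union_subset hSG hRG
  have n1 : nn G h A S ≤ h S := min_le_left _ _
  have n2 : nn G h A S ≤ h (G \ (A \ S)) := min_le_right _ _
  have n3 : nn G h (G \ A) R ≤ h R := min_le_left _ _
  have n4 : nn G h (G \ A) R ≤ h (G \ ((G \ A) \ R)) := min_le_right _ _
  have fS : ∀ e, e ∈ S → e ∈ A := fun e he => hS he
  have fA : ∀ e, e ∈ A → e ∈ G := fun e he => hA he
  have fR : ∀ e, e ∈ R → e ∈ G ∧ e ∉ A := fun e he => mem_sdiff.1 (hR he)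
  have uY : ∑ e ∈ S ∪ R, u e = ∑ e ∈ S, u e + ∑ e ∈ R, u e :=
    sum_union (disjoint_left.2 fun e h1 h2 => (fR e h2).2 (fS e h1))
  have uA : ∑ e ∈ A, u e = ∑ e ∈ S, u e + ∑ e ∈ A \ S, u e := by
    refine sum_of (fun e => ?_) (fun e h1 h2 => (mem_sdiff.1 h2).2 h1)
    rw [mem_sdiff]
    have := fS e
    tauto
  have huY := hu.y
  have a1 : ∀ Z ⊆ S ∪ R, ∑ e ∈ Z, u e ≤ h (G \ Z) := by
    intro Z hZ
    have fZ : ∀ e, e ∈ Z → e ∈ S ∨ e ∈ R := fun e he => mem_union.1 (hZ he)
    have hZG : Z ⊆ G := hZ.trans hYG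
    have k1 := hc.all (G \ Z) sdiff_subset
    have e1 : G \ (G \ Z) = Z := by
      ext e; simp only [mem_sdiff]; have hZe : e ∈ Z → e ∈ G := fun he => hZG he; tauto
    have e2 : G \ ((G \ Z) ∩ A) = (Z ∩ A) ∪ (G \ A) := by
      ext e; simp only [mem_sdiff, mem_inter, mem_union]
      have hZe : e ∈ Z → e ∈ G := fun he => hZG he
      have := fA e; tauto
    have e3 : G \ ((G \ Z) ∪ A) = Z \ A := by
      ext e; simp only [mem_sdiff, mem_union]
      have hZe : e ∈ Z → e ∈ G := fun he => hZG he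
      tauto
    have e4 : G \ ((G \ Z) \ A) = A ∪ (Z \ A) := by
      ext e; simp only [mem_sdiff, mem_union]
      have hZe : e ∈ Z → e ∈ G := fun he => hZG he
      have := fA e; tauto
    have e5 : A \ (G \ Z) = Z ∩ A := by
      ext e; simp only [mem_sdiff, mem_inter]
      have hZe : e ∈ Z → e ∈ G := fun he => hZG he
      have := fA e; tauto
    rw [e1, e2, e3, e4, e5] at k1
    have uZ : ∑ e ∈ Z, u e = ∑ e ∈ Z ∩ A, u e + ∑ e ∈ Z \ A, u e := by
      refine sum_of (fun e => ?_) (fun e h1 h2 => (mem_sdiff.1 h2).2 (mem_inter.1 h1).2)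
      rw [mem_sdiff, mem_inter]; tauto
    have c0 := hu.le Z hZG
    have c01 := hu.le (Z ∩ A) (inter_subset_left.trans hZG)
    have c02 := hu.le (Z \ A) (sdiff_subset.trans hZG)
    have c1 : ∑ e ∈ Z ∩ A, u e ≤ h ((Z ∩ A) ∪ (G \ A)) := by
      have q1 := hh.sub ((Z ∩ A) ∪ (G \ A))
        (union_subset (inter_subset_left.trans hZG) sdiff_subset) (S ∪ R) hYG
      have q2 : (Z ∩ A) ∪ (G \ A) ∪ (S ∪ R) = G \ (A \ S) := by
        ext e; simp only [mem_sdiff, mem_union, mem_inter]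
        have := fZ e; have := fS e; have := fA e; have := fR e
        tauto
      have q3 : ((Z ∩ A) ∪ (G \ A)) ∩ (S ∪ R) = (Z ∩ A) ∪ R := by
        ext e; simp only [mem_sdiff, mem_union, mem_inter]
        have := fZ e; have := fS e; have := fA e; have := fR e
        tauto
      rw [q2, q3] at q1
      have q4 := hu.le ((Z ∩ A) ∪ R) (union_subset (inter_subset_left.trans hZG) hRG)
      have q5 : ∑ e ∈ (Z ∩ A) ∪ R, u e = ∑ e ∈ Z ∩ A, u e + ∑ e ∈ R, u e :=
        sum_union (disjoint_left.2 fun e h1 h2 => (fR e h2).2 (mem_inter.1 h1).2)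
      have q6 := hu.hi
      linarith
    have c2 : ∑ e ∈ Z \ A, u e ≤ h (A ∪ (Z \ A)) := by
      have q1 := hh.sub (A ∪ (Z \ A)) (union_subset hA (sdiff_subset.trans hZG)) (S ∪ R) hYG
      have q2 : A ∪ (Z \ A) ∪ (S ∪ R) = G \ ((G \ A) \ R) := by
        ext e; simp only [mem_sdiff, mem_union]
        have := fZ e; have := fS e; have := fA e; have := fR e
        tauto
      have q3 : (A ∪ (Z \ A)) ∩ (S ∪ R) = S ∪ (Z \ A) := by
        ext e; simp only [mem_sdiff, mem_union, mem_inter]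
        have := fZ e; have := fS e; have := fA e; have := fR e
        tauto
      rw [q2, q3] at q1
      have q4 := hu.le (S ∪ (Z \ A)) (union_subset hSG (sdiff_subset.trans hZG))
      have q5 : ∑ e ∈ S ∪ (Z \ A), u e = ∑ e ∈ S, u e + ∑ e ∈ Z \ A, u e :=
        sum_union (disjoint_left.2 fun e h1 h2 => (mem_sdiff.1 h2).2 (fS e h1))
      have q6 := hu.lo
      linarith
    refine le_trans ?_ k1
    refine le_min (by linarith) (le_min (by linarith) (by linarith))
  have b1 : ∀ Z ⊆ G \ (S ∪ R), -∑ e ∈ Z, u e ≤ h Z := by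
    intro Z hZ
    have fZ : ∀ e, e ∈ Z → e ∈ G ∧ e ∉ S ∧ e ∉ R := fun e he => by
      have h1 := mem_sdiff.1 (hZ he)
      exact ⟨h1.1, fun h2 => h1.2 (mem_union_left _ h2), fun h2 => h1.2 (mem_union_right _ h2)⟩
    have hZG : Z ⊆ G := hZ.trans sdiff_subset
    have k1 := hc.all Z hZG
    have comp : ∀ X ⊆ G, -∑ e ∈ X, u e = ∑ e ∈ G \ X, u e := by
      intro X hX
      have := Finset.sum_sdiff hX (f := u)
      have := hu.tot
      linarith
    have uZ : ∑ e ∈ Z, u e = ∑ e ∈ Z ∩ A, u e + ∑ e ∈ Z \ A, u e := by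
      refine sum_of (fun e => ?_) (fun e h1 h2 => (mem_sdiff.1 h2).2 (mem_inter.1 h1).2)
      rw [mem_sdiff, mem_inter]; tauto
    have c0 := hu.le (G \ Z) sdiff_subset
    rw [← comp Z hZG] at c0
    have c01 := hu.le (G \ (Z ∩ A)) sdiff_subset
    rw [← comp _ (inter_subset_left.trans hZG)] at c01
    have c02 := hu.le (G \ (Z \ A)) sdiff_subset
    rw [← comp _ (sdiff_subset.trans hZG)] at c02
    have c1 : -∑ e ∈ Z \ A, u e ≤ h (G \ (Z ∪ A)) := by
      have q1 := hh.sub (G \ (Z ∪ A)) sdiff_subset (S ∪ R) hYG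
      have q2 : (G \ (Z ∪ A)) ∪ (S ∪ R) = S ∪ (G \ (Z ∪ A)) := by
        ext e; simp only [mem_sdiff, mem_union]
        have := fZ e; have := fS e; have := fA e; have := fR e
        tauto
      have q3 : (G \ (Z ∪ A)) ∩ (S ∪ R) = R := by
        ext e; simp only [mem_sdiff, mem_union, mem_inter]
        have := fZ e; have := fS e; have := fA e; have := fR e
        tauto
      rw [q2, q3] at q1
      have q4 := hu.le (S ∪ (G \ (Z ∪ A))) (union_subset hSG sdiff_subset)
      have q5 : ∑ e ∈ S ∪ (G \ (Z ∪ A)), u e = ∑ e ∈ S, u e + ∑ e ∈ G \ (Z ∪ A), u e :=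
        sum_union (disjoint_left.2 fun e h1 h2 =>
          (mem_sdiff.1 h2).2 (mem_union_right _ (fS e h1)))
      have q6 : ∑ e ∈ G, u e = ∑ e ∈ A, u e + ∑ e ∈ G \ A, u e := by
        have := Finset.sum_sdiff hA (f := u); linarith
      have q7 : ∑ e ∈ G \ A, u e = ∑ e ∈ G \ (Z ∪ A), u e + ∑ e ∈ Z \ A, u e := by
        refine sum_of (fun e => ?_) (fun e h1 h2 =>
          (mem_sdiff.1 h1).2 (mem_union_left _ (mem_sdiff.1 h2).1))
        simp only [mem_sdiff, mem_union]
        have := fZ e; tauto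
      have q8 := hu.lo'
      have q9 := hu.tot
      linarith
    have c2 : -∑ e ∈ Z ∩ A, u e ≤ h (A \ Z) := by
      have q1 := hh.sub (A \ Z) (sdiff_subset.trans hA) (S ∪ R) hYG
      have q2 : (A \ Z) ∪ (S ∪ R) = (A \ Z) ∪ R := by
        ext e; simp only [mem_sdiff, mem_union]
        have := fZ e; have := fS e; have := fA e; have := fR e
        tauto
      have q3 : (A \ Z) ∩ (S ∪ R) = S := by
        ext e; simp only [mem_sdiff, mem_union, mem_inter]
        have := fZ e; have := fS e; have := fA e; have := fR e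
        tauto
      rw [q2, q3] at q1
      have q4 := hu.le ((A \ Z) ∪ R) (union_subset (sdiff_subset.trans hA) hRG)
      have q5 : ∑ e ∈ (A \ Z) ∪ R, u e = ∑ e ∈ A \ Z, u e + ∑ e ∈ R, u e :=
        sum_union (disjoint_left.2 fun e h1 h2 => (fR e h2).2 (mem_sdiff.1 h1).1)
      have q6 : ∑ e ∈ A, u e = ∑ e ∈ A \ Z, u e + ∑ e ∈ Z ∩ A, u e := by
        refine sum_of (fun e => ?_) (fun e h1 h2 => (mem_sdiff.1 h1).2 (mem_inter.1 h2).1)
        simp only [mem_sdiff, mem_inter]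
        tauto
      have q8 := hu.hi'
      linarith
    refine le_trans ?_ k1
    refine le_min (by linarith) (le_min (by linarith) (by linarith))
  intro T hT
  have k1 := hh.sub T hT (G \ (S ∪ R)) sdiff_subset
  have k2 := b1 (T ∩ (G \ (S ∪ R))) inter_subset_right
  have hTW : T ∪ (G \ (S ∪ R)) ⊆ G := union_subset hT sdiff_subset
  have k3 := a1 (G \ (T ∪ (G \ (S ∪ R)))) (by
    intro e he
    obtain ⟨h1, h2⟩ := mem_sdiff.1 he
    by_contra h3
    exact h2 (mem_union_right _ (mem_sdiff.2 ⟨h1, h3⟩)))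
  have e1 : G \ (G \ (T ∪ (G \ (S ∪ R)))) = T ∪ (G \ (S ∪ R)) := by
    rw [sdiff_sdiff_right_self]; exact inf_eq_right.2 hTW
  rw [e1] at k3
  have k4 := Finset.sum_sdiff hTW (f := u)
  have k5 := Finset.sum_union_inter (s₁ := T) (s₂ := G \ (S ∪ R)) (f := u)
  have k6 := Finset.sum_sdiff hYG (f := u)
  have k7 := hu.tot
  linarith

theorem val_of0 (hh : Sub G h) {x : α → ℤ}
    (hle : ∀ A ⊆ G, ∑ e ∈ A, x e ≤ h A) (hneg : ∀ A ⊆ G, -∑ e ∈ A, x e ≤ h A) {e : α} (he : e ∈ G) :
    x e = 1 ∨ x e = -1 ∨ x e = 0 := by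
  have h1 := hle {e} (singleton_subset_iff.2 he)
  have h2 := hneg {e} (singleton_subset_iff.2 he)
  have h3 := hh.up ∅ (empty_subset _) e he
  rw [hh.empty] at h3
  have h4 : h {e} ≤ 1 := by simpa using h3
  rw [sum_singleton] at h1 h2
  omega

theorem Win.move {A S R : Finset α} {s : ℤ} {u : α → ℤ} (hu : Win G h A S R s u) {p q : α}
    (hp : p ∈ G) (hq : q ∈ G) (hnt : ∀ T ⊆ G, p ∈ T → q ∉ T → ∑ e ∈ T, u e ≠ h T)
    (hY : p ∈ S ∪ R ↔ q ∈ S ∪ R)
    (h1 : s ≤ ∑ e ∈ S, u e + ((if p ∈ S then 1 else 0) - (if q ∈ S then 1 else 0)) ∧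
      ∑ e ∈ S, u e + ((if p ∈ S then 1 else 0) - (if q ∈ S then 1 else 0)) ≤ s + 1)
    (h2 : s ≤ -(∑ e ∈ A \ S, u e + ((if p ∈ A \ S then 1 else 0) - (if q ∈ A \ S then 1 else 0))) ∧
      -(∑ e ∈ A \ S, u e + ((if p ∈ A \ S then 1 else 0) - (if q ∈ A \ S then 1 else 0))) ≤ s + 1) :
    Win G h A S R s (fun e => u e + root p q e) := by
  refine ⟨?_, ?_, ?_, ?_, ?_, ?_, ?_⟩
  · intro T hT
    rw [sum_add_distrib, sum_root]
    have h3 := hu.le T hT
    by_cases a1 : p ∈ T <;> by_cases a2 : q ∈ T <;> simp only [a1, a2, if_true, if_false]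
    · linarith
    · have := hnt T hT a1 a2
      omega
    · linarith
    · linarith
  · rw [sum_add_distrib, sum_root, if_pos hp, if_pos hq, hu.tot]; norm_num
  · rw [sum_add_distrib, sum_root, hu.y]
    by_cases a1 : p ∈ S ∪ R
    · rw [if_pos a1, if_pos (hY.1 a1)]; ring
    · rw [if_neg a1, if_neg (fun h3 => a1 (hY.2 h3))]; ring
  · rw [sum_add_distrib, sum_root]; exact h1.1
  · rw [sum_add_distrib, sum_root]; exact h1.2
  · rw [sum_add_distrib, sum_root]; exact h2.1
  · rw [sum_add_distrib, sum_root]; exact h2.2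

theorem sol_of_win (hh : Sub G h) (hG : h G = 0) {A S R : Finset α} {s : ℤ}
    (hc : Cut0 G h A) (hS : S ⊆ A) (hR : R ⊆ G \ A) (hYc : h (G \ (S ∪ R)) = h (S ∪ R))
    (hs : s + 1 = nn G h A S) (hlt : h (S ∪ R) < nn G h A S + nn G h (G \ A) R) :
    ∀ m : ℕ, ∀ u : α → ℤ, zeros G u = m → Win G h A S R s u → ∃ x, Sol G h x := by
  intro m
  induction m using Nat.strong_induction_on with
  | _ m ih =>
    intro u hm hu
    have hneg := hu.neg_le hh hc hS hR hYc hs hlt
    by_cases hsp : ∀ i ∈ G, ∀ j ∈ G, i ≠ j → u i = 0 → u j = 0 → ∃ X ⊆ G, ∑ e ∈ X, u e = h X ∧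
        ((i ∈ X ∧ j ∉ X) ∨ (j ∈ X ∧ i ∉ X))
    · exact ⟨u, sol_of hh hG hu.le hneg (fun e he => val_of0 hh hu.le hneg he) hsp⟩
    · simp only [not_forall] at hsp
      obtain ⟨i, hi, j, hj, hij, ui, uj, hsep⟩ := hsp
      have hnt1 : ∀ T ⊆ G, i ∈ T → j ∉ T → ∑ e ∈ T, u e ≠ h T := fun T hT h1 h2 h3 =>
        hsep ⟨T, hT, h3, Or.inl ⟨h1, h2⟩⟩
      have hnt2 : ∀ T ⊆ G, j ∈ T → i ∉ T → ∑ e ∈ T, u e ≠ h T := fun T hT h1 h2 h3 =>
        hsep ⟨T, hT, h3, Or.inr ⟨h1, h2⟩⟩
      have hSG : S ⊆ G := hS.trans hc.sub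
      have hRG : R ⊆ G := hR.trans sdiff_subset
      have hYG : S ∪ R ⊆ G := union_subset hSG hRG
      have hY : i ∈ S ∪ R ↔ j ∈ S ∪ R := by
        constructor
        · intro h1; by_contra h2; exact hnt1 _ hYG h1 h2 hu.y
        · intro h1; by_contra h2; exact hnt2 _ hYG h1 h2 hu.y
      have l1 := hu.lo
      have l2 := hu.hi
      have l3 := hu.lo'
      have l4 := hu.hi'
      have hz1 : zeros G (fun e => u e + root i j e) < m := by
        rw [← hm]; exact zeros_one hj hi hij.symm uj ui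
      have hz2 : zeros G (fun e => u e + root j i e) < m := by
        rw [← hm]; exact zeros_one hi hj hij ui uj
      have hyes : ∀ e, e ∈ S ∪ R → e ∉ A \ S := by
        intro e h1 h2
        obtain ⟨h3, h4⟩ := mem_sdiff.1 h2
        rcases mem_union.1 h1 with h5 | h5
        · exact h4 h5
        · exact (mem_sdiff.1 (hR h5)).2 h3
      by_cases hiY : i ∈ S ∪ R
      · have hjY := hY.1 hiY
        have i1 := hyes i hiY
        have j1 := hyes j hjY
        by_cases a1 : i ∈ S <;> by_cases a2 : j ∈ S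
        · refine ih _ hz1 _ rfl (hu.move hi hj hnt1 hY ?_ ?_) <;>
            simp only [i1, j1, a1, a2, if_true, if_false] <;> constructor <;> linarith
        · by_cases a3 : ∑ e ∈ S, u e = s
          · refine ih _ hz1 _ rfl (hu.move hi hj hnt1 hY ?_ ?_) <;>
              simp only [i1, j1, a1, a2, if_true, if_false] <;> constructor <;> linarith
          · have a4 : ∑ e ∈ S, u e = s + 1 := by omega
            refine ih _ hz2 _ rfl (hu.move hj hi hnt2 hY.symm ?_ ?_) <;>
              simp only [i1, j1, a1, a2, if_true, if_false] <;> constructor <;> linarith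
        · by_cases a3 : ∑ e ∈ S, u e = s
          · refine ih _ hz2 _ rfl (hu.move hj hi hnt2 hY.symm ?_ ?_) <;>
              simp only [i1, j1, a1, a2, if_true, if_false] <;> constructor <;> linarith
          · have a4 : ∑ e ∈ S, u e = s + 1 := by omega
            refine ih _ hz1 _ rfl (hu.move hi hj hnt1 hY ?_ ?_) <;>
              simp only [i1, j1, a1, a2, if_true, if_false] <;> constructor <;> linarith
        · refine ih _ hz1 _ rfl (hu.move hi hj hnt1 hY ?_ ?_) <;>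
            simp only [i1, j1, a1, a2, if_true, if_false] <;> constructor <;> linarith
      · have hjY : j ∉ S ∪ R := fun h1 => hiY (hY.2 h1)
        have i1 : i ∉ S := fun h1 => hiY (mem_union_left _ h1)
        have j1 : j ∉ S := fun h1 => hjY (mem_union_left _ h1)
        by_cases a1 : i ∈ A \ S <;> by_cases a2 : j ∈ A \ S
        · refine ih _ hz1 _ rfl (hu.move hi hj hnt1 hY ?_ ?_) <;>
            simp only [i1, j1, a1, a2, if_true, if_false] <;> constructor <;> linarith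
        · by_cases a3 : -∑ e ∈ A \ S, u e = s
          · refine ih _ hz2 _ rfl (hu.move hj hi hnt2 hY.symm ?_ ?_) <;>
              simp only [i1, j1, a1, a2, if_true, if_false] <;> constructor <;> linarith
          · have a4 : -∑ e ∈ A \ S, u e = s + 1 := by omega
            refine ih _ hz1 _ rfl (hu.move hi hj hnt1 hY ?_ ?_) <;>
              simp only [i1, j1, a1, a2, if_true, if_false] <;> constructor <;> linarith
        · by_cases a3 : -∑ e ∈ A \ S, u e = s
          · refine ih _ hz1 _ rfl (hu.move hi hj hnt1 hY ?_ ?_) <;>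
              simp only [i1, j1, a1, a2, if_true, if_false] <;> constructor <;> linarith
          · have a4 : -∑ e ∈ A \ S, u e = s + 1 := by omega
            refine ih _ hz2 _ rfl (hu.move hj hi hnt2 hY.symm ?_ ?_) <;>
              simp only [i1, j1, a1, a2, if_true, if_false] <;> constructor <;> linarith
        · refine ih _ hz1 _ rfl (hu.move hi hj hnt1 hY ?_ ?_) <;>
            simp only [i1, j1, a1, a2, if_true, if_false] <;> constructor <;> linarith

theorem exists_win (hh : Sub G h) (hG : h G = 0) {A S R : Finset α} {s : ℤ}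
    (hA : A ⊆ G) (hS : S ⊆ A) (hR : R ⊆ G \ A)
    (hs : s + 1 = nn G h A S) (hlt : h (S ∪ R) < nn G h A S + nn G h (G \ A) R) :
    ∃ u, Win G h A S R s u := by
  have hSG : S ⊆ G := hS.trans hA
  have hRG : R ⊆ G := hR.trans sdiff_subset
  have hYG : S ∪ R ⊆ G := union_subset hSG hRG
  have n1 : nn G h A S ≤ h S := min_le_left _ _
  have n2 : nn G h A S ≤ h (G \ (A \ S)) := min_le_right _ _
  have n3 : nn G h (G \ A) R ≤ h R := min_le_left _ _
  have n4 : nn G h (G \ A) R ≤ h (G \ ((G \ A) \ R)) := min_le_right _ _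
  have fS : ∀ e, e ∈ S → e ∈ A := fun e he => hS he
  have fA : ∀ e, e ∈ A → e ∈ G := fun e he => hA he
  have fR : ∀ e, e ∈ R → e ∈ G ∧ e ∉ A := fun e he => mem_sdiff.1 (hR he)
  obtain ⟨u1, v1, v2, v3⟩ := exists_level (Y := S ∪ R) (S := S) (f := h) (s := s) hh.empty
    (fun X hX Z hZ => hh.sub X (hX.trans hYG) Z (hZ.trans hYG)) subset_union_left
    (by
      have e1 : (S ∪ R) \ S = R := by
        ext e; simp only [mem_sdiff, mem_union]
        have := fS e; have := fR e; tauto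
      rw [e1]; linarith) (by linarith)
  obtain ⟨u2, w1, w2, w3⟩ := exists_level (Y := G \ (S ∪ R)) (S := A \ S)
    (f := fun T => h ((S ∪ R) ∪ T) - h (S ∪ R)) (s := -s) (by simp)
    (by
      intro X hX Z hZ
      have k1 := hh.sub ((S ∪ R) ∪ X) (union_subset hYG (hX.trans sdiff_subset))
        ((S ∪ R) ∪ Z) (union_subset hYG (hZ.trans sdiff_subset))
      have e1 : ((S ∪ R) ∪ X) ∪ ((S ∪ R) ∪ Z) = (S ∪ R) ∪ (X ∪ Z) := by
        ext e; simp only [mem_union]; tauto
      have e2 : ((S ∪ R) ∪ X) ∩ ((S ∪ R) ∪ Z) = (S ∪ R) ∪ (X ∩ Z) := by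
        ext e; simp only [mem_union, mem_inter]; tauto
      rw [e1, e2] at k1
      show h ((S ∪ R) ∪ (X ∪ Z)) - h (S ∪ R) + (h ((S ∪ R) ∪ (X ∩ Z)) - h (S ∪ R)) ≤
        h ((S ∪ R) ∪ X) - h (S ∪ R) + (h ((S ∪ R) ∪ Z) - h (S ∪ R))
      linarith)
    (by
      intro e he
      obtain ⟨h1, h2⟩ := mem_sdiff.1 he
      refine mem_sdiff.2 ⟨hA h1, fun h3 => ?_⟩
      rcases mem_union.1 h3 with h4 | h4
      · exact h2 h4
      · exact (fR e h4).2 h1)
    (by
      have e1 : (S ∪ R) ∪ (G \ (S ∪ R)) = G := by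
        rw [union_sdiff_of_subset hYG]
      have e2 : (S ∪ R) ∪ ((G \ (S ∪ R)) \ (A \ S)) = G \ (A \ S) := by
        ext e; simp only [mem_sdiff, mem_union]
        have := fS e; have := fR e; have := fA e; tauto
      show h ((S ∪ R) ∪ (G \ (S ∪ R))) - h (S ∪ R) -
        (h ((S ∪ R) ∪ ((G \ (S ∪ R)) \ (A \ S))) - h (S ∪ R)) ≤ -s
      rw [e1, e2, hG]
      linarith)
    (by
      have e1 : (S ∪ R) ∪ (A \ S) = G \ ((G \ A) \ R) := by
        ext e; simp only [mem_sdiff, mem_union]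
        have := fS e; have := fR e; have := fA e; tauto
      show -s ≤ h ((S ∪ R) ∪ (A \ S)) - h (S ∪ R)
      rw [e1]
      linarith)
  let u : α → ℤ := fun e => if e ∈ S ∪ R then u1 e else u2 e
  have hu : ∀ T : Finset α, ∑ e ∈ T, u e = ∑ e ∈ T ∩ (S ∪ R), u1 e + ∑ e ∈ T \ (S ∪ R), u2 e := by
    intro T
    have h1 : ∑ e ∈ T, u e = ∑ e ∈ T ∩ (S ∪ R), u e + ∑ e ∈ T \ (S ∪ R), u e := by
      refine sum_of (fun e => ?_) (fun e h1 h2 => (mem_sdiff.1 h2).2 (mem_inter.1 h1).2)
      rw [mem_sdiff, mem_inter]; tauto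
    rw [h1]
    congr 1
    · exact Finset.sum_congr rfl (fun e he => if_pos (mem_inter.1 he).2)
    · exact Finset.sum_congr rfl (fun e he => if_neg (mem_sdiff.1 he).2)
  refine ⟨u, ?_, ?_, ?_, ?_, ?_, ?_, ?_⟩
  · intro T hT
    rw [hu]
    have k1 := v1 (T ∩ (S ∪ R)) inter_subset_right
    have k2 := w1 (T \ (S ∪ R)) (sdiff_subset_sdiff hT (Subset.refl _))
    have k3 := hh.sub T hT (S ∪ R) hYG
    have e1 : (S ∪ R) ∪ (T \ (S ∪ R)) = T ∪ (S ∪ R) := by
      ext e; simp only [mem_sdiff, mem_union]; tauto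
    have k4 : ∑ e ∈ T \ (S ∪ R), u2 e ≤ h ((S ∪ R) ∪ (T \ (S ∪ R))) - h (S ∪ R) := k2
    rw [e1] at k4
    linarith
  · rw [hu, inter_eq_right.2 hYG, v2, w2]
    show h (S ∪ R) + (h ((S ∪ R) ∪ (G \ (S ∪ R))) - h (S ∪ R)) = 0
    rw [union_sdiff_of_subset hYG, hG]; ring
  · have e1 : (S ∪ R) \ (S ∪ R) = ∅ := by ext e; simp
    rw [hu, inter_self, e1, sum_empty, v2, add_zero]
  · have e1 : S \ (S ∪ R) = ∅ := by ext e; simp only [mem_sdiff, mem_union]; simp; tauto
    rw [hu, inter_eq_left.2 (subset_union_left : S ⊆ S ∪ R), e1, sum_empty, v3, add_zero]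
  · have e1 : S \ (S ∪ R) = ∅ := by ext e; simp only [mem_sdiff, mem_union]; simp; tauto
    rw [hu, inter_eq_left.2 (subset_union_left : S ⊆ S ∪ R), e1, sum_empty, v3]
    linarith
  · have e1 : (A \ S) ∩ (S ∪ R) = ∅ := by
      ext e; simp only [mem_sdiff, mem_union, mem_inter, notMem_empty, iff_false]
      have := fR e; tauto
    have e2 : (A \ S) \ (S ∪ R) = A \ S := by
      ext e; simp only [mem_sdiff, mem_union]
      have := fR e; tauto
    rw [hu, e1, e2, sum_empty, w3]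
    linarith
  · have e1 : (A \ S) ∩ (S ∪ R) = ∅ := by
      ext e; simp only [mem_sdiff, mem_union, mem_inter, notMem_empty, iff_false]
      have := fR e; tauto
    have e2 : (A \ S) \ (S ∪ R) = A \ S := by
      ext e; simp only [mem_sdiff, mem_union]
      have := fR e; tauto
    rw [hu, e1, e2, sum_empty, w3]
    linarith

theorem sol_of_not_prod (hh : Sub G h) (hG : h G = 0) {A : Finset α} (hc : Cut0 G h A)
    (hn : ¬ Prod G h A) : ∃ x, Sol G h x := by
  unfold Prod at hn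
  simp only [not_forall, not_le] at hn
  obtain ⟨S, hS, R, hR, hlt⟩ := hn
  have hA := hc.sub
  have hSG : S ⊆ G := hS.trans hA
  have hRG : R ⊆ G := hR.trans sdiff_subset
  have hYG : S ∪ R ⊆ G := union_subset hSG hRG
  have fS : ∀ e, e ∈ S → e ∈ A := fun e he => hS he
  have fA : ∀ e, e ∈ A → e ∈ G := fun e he => hA he
  have fR : ∀ e, e ∈ R → e ∈ G ∧ e ∉ A := fun e he => mem_sdiff.1 (hR he)
  have n1 : nn G h A S ≤ h S := min_le_left _ _
  have n2 : nn G h A S ≤ h (G \ (A \ S)) := min_le_right _ _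
  have n3 : nn G h (G \ A) R ≤ h R := min_le_left _ _
  have n4 : nn G h (G \ A) R ≤ h (G \ ((G \ A) \ R)) := min_le_right _ _
  obtain ⟨m1, m2⟩ := hc.nn_le hh hG hS
  obtain ⟨m3, m4⟩ := hc.compl'.nn_le hh hG hR
  have hYc : h (G \ (S ∪ R)) = h (S ∪ R) := by
    apply le_antisymm
    · have k1 := hc.all (S ∪ R) hYG
      have e1 : (S ∪ R) ∩ A = S := by
        ext e; simp only [mem_union, mem_inter]
        have := fS e; have := fR e; tauto
      have e2 : G \ ((S ∪ R) ∪ A) = (G \ A) \ R := by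
        ext e; simp only [mem_union, mem_sdiff]
        have := fS e; tauto
      have e3 : (S ∪ R) \ A = R := by
        ext e; simp only [mem_union, mem_sdiff]
        have := fS e; have := fR e; tauto
      have e4 : A \ (S ∪ R) = A \ S := by
        ext e; simp only [mem_union, mem_sdiff]
        have := fR e; tauto
      rw [e1, e2, e3, e4] at k1
      rcases min_le_iff.1 k1 with k2 | k2
      · exact k2
      · rcases min_le_iff.1 k2 with k3 | k3 <;> linarith
    · have k1 := hc.all (G \ (S ∪ R)) sdiff_subset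
      have e0 : G \ (G \ (S ∪ R)) = S ∪ R := by
        rw [sdiff_sdiff_right_self]; exact inf_eq_right.2 hYG
      have e1 : (G \ (S ∪ R)) ∩ A = A \ S := by
        ext e; simp only [mem_union, mem_inter, mem_sdiff]
        have := fA e; have := fR e; tauto
      have e2 : G \ ((G \ (S ∪ R)) ∪ A) = R := by
        ext e; simp only [mem_union, mem_sdiff]
        have := fS e; have := fR e; tauto
      have e3 : (G \ (S ∪ R)) \ A = (G \ A) \ R := by
        ext e; simp only [mem_union, mem_sdiff]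
        have := fS e; tauto
      have e4 : A \ (G \ (S ∪ R)) = S := by
        ext e; simp only [mem_union, mem_sdiff]
        have := fS e; have := fR e; have := fA e; tauto
      rw [e0, e1, e2, e3, e4] at k1
      rcases min_le_iff.1 k1 with k2 | k2
      · exact k2
      · rcases min_le_iff.1 k2 with k3 | k3 <;> linarith
  have hs : (nn G h A S - 1) + 1 = nn G h A S := by ring
  obtain ⟨u, hu⟩ := exists_win hh hG hA hS hR hs hlt
  exact sol_of_win hh hG hc hS hR hYc hs hlt _ u rfl hu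

end Pool.Agent.P901b45z
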