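import Pool.Agent.Lib.P901b45z.Base

/-!
The slice `x(A) = 0` for Frank's question on complementary vertices of integer 2-polymatroids
(MP_901b45_co): the pivot families.
-/

set_option autoImplicit false

namespace Pool.Agent.P901b45z

open Finset Pool.Agent.P901b45e Pool.Agent.P901b45d Pool.Agent.P901b45k

variable {α : Type*} [DecidableEq α] {G : Finset α} {h : Finset α → ℤ}

theorem mem_out {A S : Finset α} {x : α} : x ∈ G \ (A \ S) ↔ (x ∈ G ∧ (x ∈ A → x ∈ S)) := by
  simp only [mem_sdiff, not_and, not_not]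

/-- the sets whose complementary representative is tight form a pivot family -/
theorem pivot (hh : Sub G h) (hG : h G = 0) {A : Finset α} (hA : A ⊆ G)
    (hex : ∀ S ⊆ A, ¬ (h S = nn G h A S ∧ h (G \ (A \ S)) = nn G h A S)) :
    PivotFam A (nn G h A) (fun S => h (G \ (A \ S)) = nn G h A S) := by
  have hnot : ∀ S : Finset α, ¬ h (G \ (A \ S)) = nn G h A S → h S = nn G h A S := by
    intro S hS
    rcases nn_cases (G := G) (h := h) A S with h1 | h1
    · exact h1.symm
    · exact absurd h1.symm hS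
  refine ⟨?_, ?_, ?_, ?_, ?_, ?_⟩
  · intro S T hST hT hS
    by_contra hcon
    have h1 := hnot T hcon
    have h2 := nn_le2 (G := G) (h := h) A T
    have h3 := nn_le1 (G := G) (h := h) A S
    have h4 := hh.sub (G \ (A \ S)) sdiff_subset T (hT.trans hA)
    have e1 : (G \ (A \ S)) ∪ T = G \ (A \ T) := by
      ext x
      rw [mem_union, mem_out, mem_out]
      constructor
      · rintro (⟨h5, h6⟩ | h5)
        · exact ⟨h5, fun h7 => hST (h6 h7)⟩
        · exact ⟨hA (hT h5), fun _ => h5⟩
      · rintro ⟨h5, h6⟩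
        by_cases h7 : x ∈ A
        · exact Or.inr (h6 h7)
        · exact Or.inl ⟨h5, fun h8 => absurd h8 h7⟩
    have e2 : (G \ (A \ S)) ∩ T = S := by
      ext x
      rw [mem_inter, mem_out]
      constructor
      · rintro ⟨⟨h5, h6⟩, h7⟩
        exact h6 (hT h7)
      · intro h5
        exact ⟨⟨hA (hT (hST h5)), fun _ => h5⟩, hST h5⟩
    rw [e1, e2] at h4
    exact hcon (le_antisymm (by linarith) h2)
  · intro h1
    exact hex ∅ (empty_subset _) ⟨by rw [hh.empty, nn_empty hh], h1⟩
  · show h (G \ (A \ A)) = nn G h A A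
    rw [Finset.sdiff_self, sdiff_empty, hG, nn_top hh hG hA]
  · intro S a hS ha h1 h2
    by_cases haS : a ∈ S
    · rw [insert_eq_of_mem haS]
    · have h3 := hnot S h1
      have hSa : insert a S ⊆ A := insert_subset ha hS
      have h4 : h (insert a S) ≠ nn G h A (insert a S) := fun h5 => hex _ hSa ⟨h5, h2⟩
      have h5 := nn_le1 (G := G) (h := h) A (insert a S)
      have h6 := nn_le2 (G := G) (h := h) A S
      have h7 := hh.up S (hS.trans hA) a (hA ha)
      have e1 : insert a (G \ (A \ S)) = G \ (A \ insert a S) := by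
        ext x
        rw [mem_insert, mem_out, mem_out, mem_insert]
        constructor
        · rintro (h8 | h8)
          · exact ⟨h8 ▸ hA ha, fun _ => Or.inl h8⟩
          · exact ⟨h8.1, fun h9 => Or.inr (h8.2 h9)⟩
        · rintro ⟨h8, h9⟩
          by_cases h10 : x = a
          · exact Or.inl h10
          · exact Or.inr ⟨h8, fun h11 => (h9 h11).resolve_left h10⟩
      have h8 := hh.down (G \ (A \ S)) sdiff_subset a (hA ha)
      rw [e1] at h8
      change h (G \ (A \ insert a S)) = nn G h A (insert a S) at h2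
      have h1' : h (G \ (A \ S)) ≠ nn G h A S := h1
      omega
  · intro X Y hX hY hm h1 h2
    change h (G \ (A \ X)) = nn G h A X at h1
    change h (G \ (A \ Y)) = nn G h A Y at h2
    show h (G \ (A \ (X ∩ Y))) = nn G h A (X ∩ Y)
    have h3 := hh.sub (G \ (A \ X)) sdiff_subset (G \ (A \ Y)) sdiff_subset
    have e1 : (G \ (A \ X)) ∪ (G \ (A \ Y)) = G \ (A \ (X ∪ Y)) := by
      ext x
      rw [mem_union, mem_out, mem_out, mem_out, mem_union]
      constructor
      · rintro (h4 | h4)
        · exact ⟨h4.1, fun h5 => Or.inl (h4.2 h5)⟩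
        · exact ⟨h4.1, fun h5 => Or.inr (h4.2 h5)⟩
      · rintro ⟨h4, h5⟩
        by_cases h6 : x ∈ A
        · rcases h5 h6 with h7 | h7
          · exact Or.inl ⟨h4, fun _ => h7⟩
          · exact Or.inr ⟨h4, fun _ => h7⟩
        · exact Or.inl ⟨h4, fun h7 => absurd h7 h6⟩
    have e2 : (G \ (A \ X)) ∩ (G \ (A \ Y)) = G \ (A \ (X ∩ Y)) := by
      ext x
      rw [mem_inter, mem_out, mem_out, mem_out, mem_inter]
      constructor
      · rintro ⟨⟨h4, h5⟩, _, h6⟩
        exact ⟨h4, fun h7 => ⟨h5 h7, h6 h7⟩⟩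
      · rintro ⟨h4, h5⟩
        exact ⟨⟨h4, fun h7 => (h5 h7).1⟩, h4, fun h7 => (h5 h7).2⟩
    rw [e1, e2] at h3
    have h4 := nn_le2 (G := G) (h := h) A (X ∪ Y)
    have h5 := nn_le2 (G := G) (h := h) A (X ∩ Y)
    exact le_antisymm (by linarith) h5
  · intro X Y hX hY hm h1 h2
    have h3 := hnot X h1
    have h4 := hnot Y h2
    have h5 := hh.sub X (hX.trans hA) Y (hY.trans hA)
    have h6 := nn_le1 (G := G) (h := h) A (X ∪ Y)
    have h7 := nn_le1 (G := G) (h := h) A (X ∩ Y)
    intro h8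
    exact hex (X ∪ Y) (union_subset hX hY) ⟨le_antisymm (by linarith) h6, h8⟩

/-- the dual of a pivot family -/
theorem dual {A : Finset α} {n : Finset α → ℤ} {V : Finset α → Prop}
    (hn : ∀ S ⊆ A, n (A \ S) = n S) (hv : PivotFam A n V) :
    PivotFam A n (fun S => ¬ V (A \ S)) := by
  have eu : ∀ X Y : Finset α, (A \ X) ∪ (A \ Y) = A \ (X ∩ Y) := by
    intro X Y
    ext x
    simp only [mem_union, mem_sdiff, mem_inter]
    tauto
  have ei : ∀ X Y : Finset α, (A \ X) ∩ (A \ Y) = A \ (X ∪ Y) := by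
    intro X Y
    ext x
    simp only [mem_union, mem_sdiff, mem_inter]
    tauto
  have hmod : ∀ X Y : Finset α, X ⊆ A → Y ⊆ A → n (X ∪ Y) + n (X ∩ Y) = n X + n Y →
      n ((A \ X) ∪ (A \ Y)) + n ((A \ X) ∩ (A \ Y)) = n (A \ X) + n (A \ Y) := by
    intro X Y hX hY hm
    rw [eu, ei, hn _ (inter_subset_left.trans hX), hn _ (union_subset hX hY), hn X hX, hn Y hY]
    linarith
  refine ⟨?_, ?_, ?_, ?_, ?_, ?_⟩
  · intro S T hST hT h1 h2
    exact h1 (hv.up _ _ (sdiff_subset_sdiff (Subset.refl _) hST) sdiff_subset h2)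
  · intro h1
    apply h1
    rw [sdiff_empty]
    exact hv.top
  · show ¬ V (A \ A)
    rw [Finset.sdiff_self]
    exact hv.empty
  · intro S a hS ha h1 h2
    by_cases haS : a ∈ S
    · rw [insert_eq_of_mem haS]
    · have h1' : V (A \ S) := not_not.1 h1
      have e1 : insert a (A \ insert a S) = A \ S := by
        ext x
        simp only [mem_insert, mem_sdiff, not_or]
        constructor
        · rintro (h3 | h3)
          · rw [h3]; exact ⟨ha, haS⟩
          · exact ⟨h3.1, h3.2.2⟩
        · rintro ⟨h3, h4⟩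
          by_cases h5 : x = a
          · exact Or.inl h5
          · exact Or.inr ⟨h3, h5, h4⟩
      have h3 := hv.p1 (A \ insert a S) a sdiff_subset ha h2 (by rw [e1]; exact h1')
      rw [e1, hn S hS, hn _ (insert_subset ha hS)] at h3
      exact h3.symm
  · intro X Y hX hY hm h1 h2
    show ¬ V (A \ (X ∩ Y))
    rw [← eu]
    exact hv.union _ _ sdiff_subset sdiff_subset (hmod X Y hX hY hm) h1 h2
  · intro X Y hX hY hm h1 h2
    have h1' : V (A \ X) := not_not.1 h1
    have h2' : V (A \ Y) := not_not.1 h2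
    have h3 := hv.inter _ _ sdiff_subset sdiff_subset (hmod X Y hX hY hm) h1' h2'
    rw [ei] at h3
    exact not_not.2 h3

/-- the good edge on one side of the slice -/
theorem exists_good (hh : Sub G h) (hG : h G = 0) {A : Finset α} (hc : Cut0 G h A)
    (hex : ∀ S ⊆ A, ¬ (h S = nn G h A S ∧ h (G \ (A \ S)) = nn G h A S)) :
    ∃ S a, S ⊆ A ∧ a ∈ A ∧ a ∉ S ∧ h S = nn G h A S ∧
      h (G \ (A \ insert a S)) = nn G h A (insert a S) ∧
      h (A \ insert a S) = nn G h A (A \ insert a S) ∧
      h (G \ (A \ (A \ S))) = nn G h A (A \ S) := by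
  have hnot : ∀ S : Finset α, ¬ h (G \ (A \ S)) = nn G h A S → h S = nn G h A S := by
    intro S hS
    rcases nn_cases (G := G) (h := h) A S with h1 | h1
    · exact h1.symm
    · exact absurd h1.symm hS
  have hV1 := pivot hh hG hc.sub hex
  have hV2 := dual (fun S hS => nn_eq hh hG hc hS) hV1
  rcases good_edge (nn_empty hh A) (fun a ha => nn_single hh hc.sub ha)
    (fun X Y hX hY => nn_sub hh hc.sub X Y hX hY) hV1 hV2 with hge | hge
  · obtain ⟨S, a, hS, ha, haS, h1, h2, h3, h4⟩ := hge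
    exact ⟨S, a, hS, ha, haS, hnot S h1, h3, hnot _ h4, not_not.1 h2⟩
  · obtain ⟨U, V, hU, hV, hd, h1, h2⟩ := hge
    refine absurd (hV1.up U (A \ V) ?_ sdiff_subset h1) h2
    intro x hx
    exact mem_sdiff.2 ⟨hU hx, fun h3 => (disjoint_left.1 hd) hx h3⟩

end Pool.Agent.P901b45z
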