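import Pool.Agent.Lib.P901b45z.Flag
import Pool.Agent.Lib.P901b45z.Pivot
import Pool.Agent.Lib.P901b45z.NotProd

/-!
The slice `x(A) = 0` for Frank's question on complementary vertices of integer 2-polymatroids
(MP_901b45_co): the theorem.
-/

set_option autoImplicit false

namespace Pool.Agent.P901b45z

open Finset Pool.Agent.P901b45e Pool.Agent.P901b45d Pool.Agent.P901b45k

variable {α : Type*} [DecidableEq α] {G : Finset α} {h : Finset α → ℤ}

theorem V_of (hh : Sub G h) (hG : h G = 0) {A : Finset α} (hc : Cut0 G h A) (hp : Prod G h A)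
    {x : α → ℤ} (h1 : ∀ T ⊆ A, ∑ e ∈ T, x e ≤ nn G h A T) (h2 : ∑ e ∈ A, x e = 0)
    (h3 : ∀ T ⊆ G \ A, ∑ e ∈ T, x e ≤ nn G h (G \ A) T) (h4 : ∑ e ∈ G \ A, x e = 0) :
    V G h x := by
  have hle : ∀ Y ⊆ G, ∑ e ∈ Y, x e ≤ h Y := by
    intro Y hY
    have e1 := Finset.sum_inter_add_sum_sdiff Y A x
    have a1 := h1 (Y ∩ A) inter_subset_right
    have a2 := h3 (Y \ A) (sdiff_subset_sdiff hY (Subset.refl _))
    have a3 := hp (Y ∩ A) inter_subset_right (Y \ A) (sdiff_subset_sdiff hY (Subset.refl _))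
    have e2 : (Y ∩ A) ∪ (Y \ A) = Y := by
      ext z; simp only [mem_union, mem_inter, mem_sdiff]; tauto
    rw [e2] at a3
    linarith
  have hneg : ∀ Y ⊆ G, -∑ e ∈ Y, x e ≤ h Y := by
    intro Y hY
    have e1 := Finset.sum_inter_add_sum_sdiff Y A x
    have e2 := Finset.sum_inter_add_sum_sdiff A Y x
    have e3 := Finset.sum_inter_add_sum_sdiff (G \ A) Y x
    have e4 : A ∩ Y = Y ∩ A := inter_comm _ _
    have e5 : (G \ A) ∩ Y = Y \ A := by
      ext z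
      have := @hY z
      simp only [mem_inter, mem_sdiff]; tauto
    rw [e4] at e2
    rw [e5] at e3
    have a1 := h1 (A \ Y) sdiff_subset
    have a2 := h3 ((G \ A) \ Y) sdiff_subset
    have b1 := nn_eq hh hG hc (S := Y ∩ A) inter_subset_right
    have b2 := nn_eq hh hG hc.compl (S := Y \ A) (sdiff_subset_sdiff hY (Subset.refl _))
    have e6 : A \ (Y ∩ A) = A \ Y := by
      ext z; simp only [mem_inter, mem_sdiff]; tauto
    have e7 : (G \ A) \ (Y \ A) = (G \ A) \ Y := by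
      ext z; simp only [mem_sdiff]; tauto
    rw [e6] at b1
    rw [e7] at b2
    have a3 := hp (Y ∩ A) inter_subset_right (Y \ A) (sdiff_subset_sdiff hY (Subset.refl _))
    have e8 : (Y ∩ A) ∪ (Y \ A) = Y := by
      ext z; simp only [mem_union, mem_inter, mem_sdiff]; tauto
    rw [e8] at a3
    linarith
  refine ⟨hle, hneg, ?_⟩
  intro e he
  have h5 := hle {e} (singleton_subset_iff.2 he)
  have h6 := hneg {e} (singleton_subset_iff.2 he)
  have h7 := hh.up ∅ (empty_subset _) e he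
  rw [hh.empty] at h7
  have h8 : h {e} ≤ 1 := by simpa using h7
  rw [sum_singleton] at h5 h6
  omega

/-- the sum over the big representative -/
theorem sum_big {D : Finset α} (hD : D ⊆ G) {x : α → ℤ} (h1 : ∑ e ∈ G, x e = 0)
    (h2 : ∑ e ∈ D, x e = 0) {T : Finset α} (hT : T ⊆ D) :
    ∑ e ∈ G \ (D \ T), x e = ∑ e ∈ T, x e := by
  have e1 := Finset.sum_sdiff (sdiff_subset.trans hD : D \ T ⊆ G) (f := x)
  have e2 := Finset.sum_sdiff hT (f := x)
  linarith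

/-- a tight set of one part gives a tight set -/
theorem lift {D : Finset α} (hD : D ⊆ G) {x : α → ℤ} (h1 : ∑ e ∈ G, x e = 0)
    (h2 : ∑ e ∈ D, x e = 0) {T : Finset α} (hT : T ⊆ D) (ht : ∑ e ∈ T, x e = nn G h D T) :
    ∃ X ⊆ G, ∑ e ∈ X, x e = h X ∧ ∀ p ∈ D, (p ∈ X ↔ p ∈ T) := by
  rcases nn_cases (G := G) (h := h) D T with h3 | h3
  · exact ⟨T, hT.trans hD, by rw [ht, h3], fun p _ => Iff.rfl⟩
  · refine ⟨G \ (D \ T), sdiff_subset, by rw [sum_big hD h1 h2 hT, ht, h3], ?_⟩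
    intro p hp
    have := hD hp
    simp only [mem_sdiff]
    tauto

/-- a vector with given parts -/
theorem glue_sum {A : Finset α} {x y : α → ℤ} :
    (∀ T ⊆ A, ∑ e ∈ T, (if e ∈ A then x e else y e) = ∑ e ∈ T, x e) ∧
    (∀ T ⊆ G \ A, ∑ e ∈ T, (if e ∈ A then x e else y e) = ∑ e ∈ T, y e) := by
  constructor
  · intro T hT
    exact sum_congr rfl (fun e he => if_pos (hT he))
  · intro T hT
    exact sum_congr rfl (fun e he => if_neg (mem_sdiff.1 (hT he)).2)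

theorem Prod.compl {A : Finset α} (hA : A ⊆ G) (hp : Prod G h A) : Prod G h (G \ A) := by
  intro S hS R hR
  have e1 : G \ (G \ A) = A := sdiff_sdiff_of_sub hA
  rw [e1] at hR ⊢
  have := hp R hR S hS
  rw [union_comm] at this
  linarith

theorem excl (hh : Sub G h) (hG : h G = 0) {A : Finset α} (hc : Cut0 G h A) (hp : Prod G h A)
    (hno : ¬ ∃ x, Sol G h x) :
    ∀ S ⊆ A, ¬ (h S = nn G h A S ∧ h (G \ (A \ S)) = nn G h A S) := by
  rintro S hS ⟨hS1, hS2⟩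
  apply hno
  have hsubA := fun X hX Z hZ => nn_sub hh hc.sub X Z hX hZ
  have hsubB := fun X hX Z hZ => nn_sub hh (sdiff_subset : G \ A ⊆ G) X Z hX hZ
  obtain ⟨x1, a1, a2, a3, a4⟩ := exists_flag1 (D := A) (S := S) (n := nn G h A) (nn_empty hh A)
    hsubA hS
  obtain ⟨x2, b1, b2, b3, b4⟩ := exists_flag1 (D := G \ A) (S := ∅) (n := nn G h (G \ A))
    (nn_empty hh _) hsubB (empty_subset _)
  obtain ⟨g1, g2⟩ := glue_sum (G := G) (A := A) (x := x1) (y := x2)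
  set x : α → ℤ := fun e => if e ∈ A then x1 e else x2 e with hx
  have hA0 : ∑ e ∈ A, x e = 0 := by rw [g1 A (Subset.refl _), a3, nn_top hh hG hc.sub]
  have hB0 : ∑ e ∈ G \ A, x e = 0 := by
    rw [g2 (G \ A) (Subset.refl _), b3, nn_top hh hG sdiff_subset]
  have hG0 : ∑ e ∈ G, x e = 0 := by
    have := Finset.sum_sdiff hc.sub (f := x)
    linarith
  have hv : V G h x := V_of hh hG hc hp (fun T hT => by rw [g1 T hT]; exact a1 T hT) hA0
    (fun T hT => by rw [g2 T hT]; exact b1 T hT) hB0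
  have hSt : ∑ e ∈ S, x e = nn G h A S := by rw [g1 S hS, a2]
  have crossing : ∀ p ∈ A, ∀ q ∈ G \ A, ∃ X ⊆ G, ∑ e ∈ X, x e = h X ∧
      ((p ∈ X ∧ q ∉ X) ∨ (q ∈ X ∧ p ∉ X)) := by
    intro p hp' q hq
    obtain ⟨hq1, hq2⟩ := mem_sdiff.1 hq
    by_cases hpS : p ∈ S
    · exact ⟨S, hS.trans hc.sub, by rw [hSt, hS1], Or.inl ⟨hpS, fun h5 => hq2 (hS h5)⟩⟩
    · refine ⟨G \ (A \ S), sdiff_subset, by rw [sum_big hc.sub hG0 hA0 hS, hSt, hS2], Or.inr ⟨?_, ?_⟩⟩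
      · exact mem_sdiff.2 ⟨hq1, fun h5 => hq2 (mem_sdiff.1 h5).1⟩
      · exact fun h5 => (mem_sdiff.1 h5).2 (mem_sdiff.2 ⟨hp', hpS⟩)
  refine ⟨x, hv.le, hv.neg_le, by rw [hG0, hG], ?_⟩
  intro i hi j hj hij
  by_cases hiA : i ∈ A
  · by_cases hjA : j ∈ A
    · obtain ⟨T, hT, h5, _, h6⟩ := a4 i hiA j hjA hij
      obtain ⟨X, hX, h7, h8⟩ := lift (h := h) hc.sub hG0 hA0 hT (by rw [g1 T hT]; exact h5)
      refine ⟨X, hX, h7, ?_⟩
      rw [h8 i hiA, h8 j hjA]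
      exact h6
    · exact crossing i hiA j (mem_sdiff.2 ⟨hj, hjA⟩)
  · by_cases hjA : j ∈ A
    · obtain ⟨X, hX, h7, h8⟩ := crossing j hjA i (mem_sdiff.2 ⟨hi, hiA⟩)
      exact ⟨X, hX, h7, h8.symm⟩
    · have hiB := mem_sdiff.2 ⟨hi, hiA⟩
      have hjB := mem_sdiff.2 ⟨hj, hjA⟩
      obtain ⟨T, hT, h5, _, h6⟩ := b4 i hiB j hjB hij
      obtain ⟨X, hX, h7, h8⟩ := lift (h := h) sdiff_subset hG0 hB0 hT (by rw [g2 T hT]; exact h5)
      refine ⟨X, hX, h7, ?_⟩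
      rw [h8 i hiB, h8 j hjB]
      exact h6

/-- a greedy vector of one part with a chain of tight sets through `S` and `insert a S` -/
structure Flag (G : Finset α) (h : Finset α → ℤ) (D : Finset α) (x : α → ℤ) (S : Finset α)
    (a : α) : Prop where
  sub : D ⊆ G
  hS : S ⊆ D
  ha : a ∈ D
  haS : a ∉ S
  le : ∀ T ⊆ D, ∑ e ∈ T, x e ≤ nn G h D T
  tot : ∑ e ∈ D, x e = 0
  t1 : ∑ e ∈ S, x e = nn G h D S
  t2 : ∑ e ∈ insert a S, x e = nn G h D (insert a S)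
  sep : ∀ p ∈ D, ∀ q ∈ D, p ≠ q → ∃ T ⊆ D, ∑ e ∈ T, x e = nn G h D T ∧
    (T ⊆ S ∨ insert a S ⊆ T) ∧ ((p ∈ T ∧ q ∉ T) ∨ (q ∈ T ∧ p ∉ T))
  r1 : ∀ T ⊆ S, h T = nn G h D T
  r2 : ∀ T ⊆ D, insert a S ⊆ T → h (G \ (D \ T)) = nn G h D T

/-- both parts together: all pairs but one are separated by tight sets not separating this one -/
theorem Flag.pair {A : Finset α} {x : α → ℤ} {S R : Finset α} {a b : α}
    (f1 : Flag G h A x S a) (f2 : Flag G h (G \ A) x R b) :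
    ∀ p ∈ G, ∀ q ∈ G, p ≠ q → ¬ (p = a ∧ q = b) → ¬ (p = b ∧ q = a) →
      ∃ X ⊆ G, ∑ e ∈ X, x e = h X ∧ (a ∈ X ↔ b ∈ X) ∧
        ((p ∈ X ∧ q ∉ X) ∨ (q ∈ X ∧ p ∉ X)) := by
  have hA := f1.sub
  have haG := hA f1.ha
  obtain ⟨hbG, hbA⟩ := mem_sdiff.1 f2.ha
  have hG0 : ∑ e ∈ G, x e = 0 := by
    have := Finset.sum_sdiff hA (f := x)
    have h1 := f1.tot
    have h2 := f2.tot
    linarith
  have haB : a ∉ G \ A := fun h5 => (mem_sdiff.1 h5).2 f1.ha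
  have inA : ∀ p ∈ A, ∀ q ∈ A, p ≠ q → ∃ X ⊆ G, ∑ e ∈ X, x e = h X ∧ (a ∈ X ↔ b ∈ X) ∧
        ((p ∈ X ∧ q ∉ X) ∨ (q ∈ X ∧ p ∉ X)) := by
    intro p hp q hq hpq
    obtain ⟨T, hT, h1, h2, h3⟩ := f1.sep p hp q hq hpq
    rcases h2 with h2 | h2
    · refine ⟨T, hT.trans hA, by rw [h1, f1.r1 T h2], ?_, h3⟩
      exact ⟨fun h5 => absurd (h2 h5) f1.haS, fun h5 => absurd (hT h5) hbA⟩
    · refine ⟨G \ (A \ T), sdiff_subset, by
        rw [sum_big hA hG0 f1.tot hT, h1, f1.r2 T hT h2], ?_, ?_⟩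
      · have h5 := h2 (mem_insert_self a S)
        simp only [mem_sdiff]
        tauto
      · have h5 := hA hp
        have h6 := hA hq
        simp only [mem_sdiff]
        tauto
  have inB : ∀ p ∈ G \ A, ∀ q ∈ G \ A, p ≠ q → ∃ X ⊆ G, ∑ e ∈ X, x e = h X ∧ (a ∈ X ↔ b ∈ X) ∧
        ((p ∈ X ∧ q ∉ X) ∨ (q ∈ X ∧ p ∉ X)) := by
    intro p hp q hq hpq
    obtain ⟨T, hT, h1, h2, h3⟩ := f2.sep p hp q hq hpq
    rcases h2 with h2 | h2
    · refine ⟨T, hT.trans sdiff_subset, by rw [h1, f2.r1 T h2], ?_, h3⟩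
      exact ⟨fun h5 => absurd (hT h5) haB, fun h5 => absurd (h2 h5) f2.haS⟩
    · refine ⟨G \ ((G \ A) \ T), sdiff_subset, by
        rw [sum_big sdiff_subset hG0 f2.tot hT, h1, f2.r2 T hT h2], ?_, ?_⟩
      · have h5 := h2 (mem_insert_self b R)
        have h6 := f1.ha
        simp only [mem_sdiff]
        tauto
      · obtain ⟨h5, h7⟩ := mem_sdiff.1 hp
        obtain ⟨h6, h8⟩ := mem_sdiff.1 hq
        simp only [mem_sdiff]
        tauto
  have cross : ∀ p ∈ A, ∀ q ∈ G \ A, ¬ (p = a ∧ q = b) → ∃ X ⊆ G, ∑ e ∈ X, x e = h X ∧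
      (a ∈ X ↔ b ∈ X) ∧ ((p ∈ X ∧ q ∉ X) ∨ (q ∈ X ∧ p ∉ X)) := by
    intro p hp q hq hpq
    obtain ⟨hq1, hq2⟩ := mem_sdiff.1 hq
    by_cases hpS : p ∈ S
    · refine ⟨S, f1.hS.trans hA, by rw [f1.t1, f1.r1 S (Subset.refl _)], ?_, Or.inl ⟨hpS, ?_⟩⟩
      · exact ⟨fun h5 => absurd h5 f1.haS, fun h5 => absurd (f1.hS h5) hbA⟩
      · exact fun h5 => hq2 (f1.hS h5)
    by_cases hpa : p = a
    · have hqb : q ≠ b := fun h5 => hpq ⟨hpa, h5⟩
      by_cases hqR : q ∈ R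
      · refine ⟨R, f2.hS.trans sdiff_subset, by rw [f2.t1, f2.r1 R (Subset.refl _)], ?_,
          Or.inr ⟨hqR, ?_⟩⟩
        · exact ⟨fun h5 => absurd (f2.hS h5) haB, fun h5 => absurd h5 f2.haS⟩
        · intro h5
          exact (mem_sdiff.1 (f2.hS h5)).2 hp
      · have hI : insert b R ⊆ G \ A := insert_subset f2.ha f2.hS
        refine ⟨G \ ((G \ A) \ insert b R), sdiff_subset, by
          rw [sum_big sdiff_subset hG0 f2.tot hI, f2.t2, f2.r2 _ hI (Subset.refl _)], ?_,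
          Or.inl ⟨?_, ?_⟩⟩
        · have h6 := f1.ha
          simp only [mem_sdiff, mem_insert]
          tauto
        · have h6 := hA hp
          simp only [mem_sdiff, mem_insert]
          tauto
        · simp only [mem_sdiff, mem_insert]
          tauto
    · have hI : insert a S ⊆ A := insert_subset f1.ha f1.hS
      refine ⟨G \ (A \ insert a S), sdiff_subset, by
        rw [sum_big hA hG0 f1.tot hI, f1.t2, f1.r2 _ hI (Subset.refl _)], ?_, Or.inr ⟨?_, ?_⟩⟩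
      · simp only [mem_sdiff, mem_insert]
        tauto
      · simp only [mem_sdiff, mem_insert]
        tauto
      · simp only [mem_sdiff, mem_insert]
        tauto
  intro p hp q hq hpq h1 h2
  by_cases hpA : p ∈ A
  · by_cases hqA : q ∈ A
    · exact inA p hpA q hqA hpq
    · exact cross p hpA q (mem_sdiff.2 ⟨hq, hqA⟩) h1
  · by_cases hqA : q ∈ A
    · obtain ⟨X, hX, h3, h4, h5⟩ := cross q hqA p (mem_sdiff.2 ⟨hp, hpA⟩)
        (fun h5 => h2 ⟨h5.2, h5.1⟩)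
      exact ⟨X, hX, h3, h4, h5.symm⟩
    · exact inB p (mem_sdiff.2 ⟨hp, hpA⟩) q (mem_sdiff.2 ⟨hq, hqA⟩) hpq

theorem insert_flip {A S : Finset α} {a : α} (ha : a ∈ A) (haS : a ∉ S) :
    insert a (A \ insert a S) = A \ S := by
  ext z
  simp only [mem_insert, mem_sdiff, not_or]
  constructor
  · rintro (h1 | h1)
    · rw [h1]; exact ⟨ha, haS⟩
    · exact ⟨h1.1, h1.2.2⟩
  · rintro ⟨h1, h2⟩
    by_cases h3 : z = a
    · exact Or.inl h3
    · exact Or.inr ⟨h1, h3, h2⟩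

theorem Flag.neg (hh : Sub G h) (hG : h G = 0) {A : Finset α} (hc : Cut0 G h A) {x : α → ℤ}
    {S : Finset α} {a : α} (f : Flag G h A x S a)
    (hP : PivotFam A (nn G h A) (fun S => h (G \ (A \ S)) = nn G h A S))
    (hex : ∀ S ⊆ A, ¬ (h S = nn G h A S ∧ h (G \ (A \ S)) = nn G h A S))
    (h3 : h (A \ insert a S) = nn G h A (A \ insert a S))
    (h4 : h (G \ (A \ (A \ S))) = nn G h A (A \ S)) :
    Flag G h A (fun e => -x e) (A \ insert a S) a := by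
  have hI := insert_flip f.ha f.haS
  have hcompl : ∀ T ⊆ A, -∑ e ∈ T, x e = ∑ e ∈ A \ T, x e := by
    intro T hT
    have := Finset.sum_sdiff hT (f := x)
    have h5 := f.tot
    linarith
  have hIA : insert a S ⊆ A := insert_subset f.ha f.hS
  refine ⟨f.sub, sdiff_subset, f.ha, fun h5 => (mem_sdiff.1 h5).2 (mem_insert_self _ _), ?_, ?_,
    ?_, ?_, ?_, ?_, ?_⟩
  · intro T hT
    rw [sum_neg_distrib, hcompl T hT, ← nn_eq hh hG hc hT]
    exact f.le (A \ T) sdiff_subset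
  · rw [sum_neg_distrib, f.tot, neg_zero]
  · rw [sum_neg_distrib, hcompl _ sdiff_subset, sdiff_sdiff_of_sub hIA, f.t2,
      nn_eq hh hG hc hIA]
  · rw [hI, sum_neg_distrib, hcompl _ sdiff_subset, sdiff_sdiff_of_sub f.hS, f.t1,
      nn_eq hh hG hc f.hS]
  · intro p hp q hq hpq
    obtain ⟨T, hT, h5, h6, h7⟩ := f.sep p hp q hq hpq
    refine ⟨A \ T, sdiff_subset, ?_, ?_, ?_⟩
    · rw [sum_neg_distrib, hcompl _ sdiff_subset, sdiff_sdiff_of_sub hT, h5, nn_eq hh hG hc hT]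
    · rcases h6 with h6 | h6
      · right
        rw [hI]
        exact sdiff_subset_sdiff (Subset.refl _) h6
      · left
        exact sdiff_subset_sdiff (Subset.refl _) h6
    · simp only [mem_sdiff]
      tauto
  · intro T hT
    have hTA : T ⊆ A := hT.trans sdiff_subset
    rcases nn_cases (G := G) (h := h) A T with h5 | h5
    · exact h5.symm
    · exfalso
      have h6 := hP.up T (A \ insert a S) hT sdiff_subset h5.symm
      exact hex _ sdiff_subset ⟨h3, h6⟩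
  · intro T hT h5
    rw [hI] at h5
    exact hP.up (A \ S) T h5 hT h4

theorem mk_flag {A : Finset α} (hA : A ⊆ G) {x : α → ℤ} {S : Finset α} {a : α} (hS : S ⊆ A)
    (ha : a ∈ A) (haS : a ∉ S)
    (hP : PivotFam A (nn G h A) (fun S => h (G \ (A \ S)) = nn G h A S))
    (hex : ∀ S ⊆ A, ¬ (h S = nn G h A S ∧ h (G \ (A \ S)) = nn G h A S))
    (h1 : h S = nn G h A S) (h2 : h (G \ (A \ insert a S)) = nn G h A (insert a S))
    (c1 : ∀ T ⊆ A, ∑ e ∈ T, x e ≤ nn G h A T) (c2 : ∑ e ∈ A, x e = 0)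
    (c3 : ∑ e ∈ S, x e = nn G h A S) (c4 : ∑ e ∈ insert a S, x e = nn G h A (insert a S))
    (c5 : ∀ p ∈ A, ∀ q ∈ A, p ≠ q → ∃ T ⊆ A, ∑ e ∈ T, x e = nn G h A T ∧
      (T ⊆ S ∨ insert a S ⊆ T) ∧ ((p ∈ T ∧ q ∉ T) ∨ (q ∈ T ∧ p ∉ T))) :
    Flag G h A x S a := by
  refine ⟨hA, hS, ha, haS, c1, c2, c3, c4, c5, ?_, ?_⟩
  · intro T hT
    rcases nn_cases (G := G) (h := h) A T with h5 | h5
    · exact h5.symm
    · exfalso
      have h6 := hP.up T S hT hS h5.symm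
      exact hex _ hS ⟨h1, h6⟩
  · intro T hT h5
    exact hP.up (insert a S) T h5 hT h2

theorem cut0_prod (hh : Sub G h) (hG : h G = 0) {A : Finset α} (hc : Cut0 G h A)
    (hp : Prod G h A) : ∃ x, Sol G h x := by
  by_contra hno
  have hexA := excl hh hG hc hp hno
  have hexB := excl hh hG hc.compl (Prod.compl hc.sub hp) hno
  have hPA := pivot hh hG hc.sub hexA
  have hPB := pivot hh hG (sdiff_subset : G \ A ⊆ G) hexB
  obtain ⟨S, a, hS, ha, haS, s1, s2, s3, s4⟩ := exists_good hh hG hc hexA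
  obtain ⟨R, b, hR, hb, hbR, r1, r2, r3, r4⟩ := exists_good hh hG hc.compl hexB
  have hsubA := fun X hX Z hZ => nn_sub hh hc.sub X Z hX hZ
  have hsubB := fun X hX Z hZ => nn_sub hh (sdiff_subset : G \ A ⊆ G) X Z hX hZ
  obtain ⟨x1, a1, a2, a3, a4, a5⟩ := exists_flag (D := A) (S := S) (n := nn G h A) (nn_empty hh A)
    hsubA hS ha haS
  obtain ⟨x2, b1, b2, b3, b4, b5⟩ := exists_flag (D := G \ A) (S := R) (n := nn G h (G \ A))
    (nn_empty hh _) hsubB hR hb hbR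
  obtain ⟨g1, g2⟩ := glue_sum (G := G) (A := A) (x := x1) (y := x2)
  set x : α → ℤ := fun e => if e ∈ A then x1 e else x2 e with hx
  have hA0 : ∑ e ∈ A, x e = 0 := by rw [g1 A (Subset.refl _), a4, nn_top hh hG hc.sub]
  have hB0 : ∑ e ∈ G \ A, x e = 0 := by
    rw [g2 (G \ A) (Subset.refl _), b4, nn_top hh hG sdiff_subset]
  have hv : V G h x := V_of hh hG hc hp (fun T hT => by rw [g1 T hT]; exact a1 T hT) hA0
    (fun T hT => by rw [g2 T hT]; exact b1 T hT) hB0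
  have hSa : insert a S ⊆ A := insert_subset ha hS
  have hRb : insert b R ⊆ G \ A := insert_subset hb hR
  have f1 : Flag G h A x S a := mk_flag hc.sub hS ha haS hPA hexA s1 s2
    (fun T hT => by rw [g1 T hT]; exact a1 T hT) hA0 (by rw [g1 S hS]; exact a2)
    (by rw [g1 _ hSa]; exact a3) (by
      intro p hp q hq hpq
      obtain ⟨T, hT, h5, h6, h7⟩ := a5 p hp q hq hpq
      exact ⟨T, hT, by rw [g1 T hT]; exact h5, h6, h7⟩)
  have f2 : Flag G h (G \ A) x R b := mk_flag sdiff_subset hR hb hbR hPB hexB r1 r2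
    (fun T hT => by rw [g2 T hT]; exact b1 T hT) hB0 (by rw [g2 R hR]; exact b2)
    (by rw [g2 _ hRb]; exact b3) (by
      intro p hp q hq hpq
      obtain ⟨T, hT, h5, h6, h7⟩ := b5 p hp q hq hpq
      exact ⟨T, hT, by rw [g2 T hT]; exact h5, h6, h7⟩)
  have k1 := f1.pair f2
  have k2 := (f1.neg hh hG hc hPA hexA s3 s4).pair (f2.neg hh hG hc.compl hPB hexB r3 r4)
  have haG := hc.sub ha
  obtain ⟨hbG, hbA⟩ := mem_sdiff.1 hb
  have hab : a ≠ b := fun h5 => hbA (h5 ▸ ha)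
  have hxa : x a = 0 := by
    have e1 := sum_insert haS (f := x)
    have e2 := hPA.p1 S a hS ha (fun h5 => hexA S hS ⟨s1, h5⟩) s2
    have e3 := f1.t1
    have e4 := f1.t2
    linarith
  have hxb : x b = 0 := by
    have e1 := sum_insert hbR (f := x)
    have e2 := hPB.p1 R b hR hb (fun h5 => hexB R hR ⟨r1, h5⟩) r2
    have e3 := f2.t1
    have e4 := f2.t2
    linarith
  have fin1 : ∀ y : α → ℤ, V G h y → (∀ p ∈ G, ∀ q ∈ G, p ≠ q → ¬ (p = a ∧ q = b) →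
      ¬ (p = b ∧ q = a) → ∃ X ⊆ G, ∑ e ∈ X, y e = h X ∧ (a ∈ X ↔ b ∈ X) ∧
        ((p ∈ X ∧ q ∉ X) ∨ (q ∈ X ∧ p ∉ X))) →
      (∃ X ⊆ G, ∑ e ∈ X, y e = h X ∧ ((a ∈ X ∧ b ∉ X) ∨ (b ∈ X ∧ a ∉ X))) → False := by
    intro y hy hk hX
    apply hno
    refine ⟨y, hy.le, hy.neg_le, by rw [hy.total hG, hG], ?_⟩
    intro i hi j hj hij
    obtain ⟨X, hX1, hX2, hX3⟩ := hX
    by_cases h5 : i = a ∧ j = b
    · refine ⟨X, hX1, hX2, ?_⟩
      rw [h5.1, h5.2]; exact hX3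
    by_cases h6 : i = b ∧ j = a
    · refine ⟨X, hX1, hX2, ?_⟩
      rw [h6.1, h6.2]; exact hX3.symm
    obtain ⟨Z, hZ, h7, _, h8⟩ := hk i hi j hj hij h5 h6
    exact ⟨Z, hZ, h7, h8⟩
  have n1 : ∀ X ⊆ G, ∑ e ∈ X, x e = h X → (a ∈ X ↔ b ∈ X) := by
    intro X hX h5
    by_contra h6
    exact fin1 x hv k1 ⟨X, hX, h5, by tauto⟩
  have n2 : ∀ X ⊆ G, -∑ e ∈ X, x e = h X → (a ∈ X ↔ b ∈ X) := by
    intro X hX h5
    by_contra h6
    exact fin1 _ hv.neg k2 ⟨X, hX, by rw [sum_neg_distrib]; exact h5, by tauto⟩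
  have hv' := hv.add hab (Or.inl hxa) (Or.inl hxb) (fun X hX h5 h6 => (n1 X hX h5).1 h6)
    (fun X hX h5 h6 => (n2 X hX h5).2 h6)
  apply hno
  refine ⟨_, sol_of hh hG hv'.le hv'.neg_le hv'.val ?_⟩
  intro e he f hf hef he0 hf0
  have hz : ∀ d, x d + root a b d = 0 → d ≠ a ∧ d ≠ b := by
    intro d hd
    constructor
    · intro h5
      rw [h5, root_self hab, hxa] at hd
      omega
    · intro h5
      rw [h5, root_self' hab, hxb] at hd
      omega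
  obtain ⟨z1, z2⟩ := hz e he0
  obtain ⟨X, hX, h5, h6, h7⟩ := k1 e he f hf hef (fun h8 => z1 h8.1) (fun h8 => z2 h8.1)
  refine ⟨X, hX, ?_, h7⟩
  rw [sum_add_distrib, sum_root, h5]
  by_cases h8 : a ∈ X
  · rw [if_pos h8, if_pos (h6.1 h8)]; ring
  · rw [if_neg h8, if_neg (fun h9 => h8 (h6.2 h9))]; ring

/-- the theorem for slices through `0` -/
theorem Cut0.sol (hh : Sub G h) (hG : h G = 0) {A : Finset α} (hc : Cut0 G h A) :
    ∃ x, Sol G h x := by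
  by_cases hp : Prod G h A
  · exact cut0_prod hh hG hc hp
  · exact sol_of_not_prod hh hG hc hp

end Pool.Agent.P901b45z
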