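import Pool.Agent.Lib.P901b45k.Slice

/-!
Points with at most two odd entries, for Frank's question on complementary vertices of integer
2-polymatroids (MP_901b45_co).
-/

set_option autoImplicit false

namespace Pool.Agent.P901b45z

open Finset Pool.Agent.P901b45e Pool.Agent.P901b45d Pool.Agent.P901b45k

/-- `q` has a nearly even point on `I`: an integral vector `u` such that `u` and `2 - u` satisfy the
inequalities of `q`, with at most two entries `1` -/
def NearEven {α : Type*} [DecidableEq α] (I : Finset α) (q : Finset α → ℤ) : Prop :=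
  ∃ u : α → ℤ, (∀ S ⊆ I, ∑ i ∈ S, u i ≤ q S) ∧ (∀ S ⊆ I, ∑ i ∈ S, (2 - u i) ≤ q S) ∧
    (I.filter (fun i => u i = 1)).card ≤ 2

theorem NearEven.congr {α : Type*} [DecidableEq α] {I : Finset α} {g g' : Finset α → ℤ}
    (hg : ∀ S ⊆ I, g S = g' S) (h : NearEven I g) : NearEven I g' := by
  obtain ⟨u, h1, h2, h3⟩ := h
  refine ⟨u, fun S hS => ?_, fun S hS => ?_, h3⟩
  · rw [← hg S hS]; exact h1 S hS
  · rw [← hg S hS]; exact h2 S hS

variable {α : Type*} [DecidableEq α] {G : Finset α} {h : Finset α → ℤ}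

theorem sol_of_near (hh : Sub G h) (hG : h G = 0)
    (hp : NearEven G (fun S => h S + S.card)) : ∃ x, Sol G h x := by
  obtain ⟨u, h1, h2, h3⟩ := hp
  have hsum : ∀ S : Finset α, ∑ i ∈ S, (u i - 1) = ∑ i ∈ S, u i - S.card := by
    intro S
    rw [sum_sub_distrib]
    simp
  have hsum2 : ∀ S : Finset α, ∑ i ∈ S, (2 - u i) = 2 * S.card - ∑ i ∈ S, u i := by
    intro S
    rw [sum_sub_distrib]
    simp
    ring
  set x : α → ℤ := fun e => u e - 1 with hx
  have hle : ∀ A ⊆ G, ∑ e ∈ A, x e ≤ h A := by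
    intro A hA
    have a1 : ∑ i ∈ A, u i ≤ h A + A.card := h1 A hA
    show ∑ i ∈ A, (u i - 1) ≤ h A
    rw [hsum]
    linarith
  have hneg : ∀ A ⊆ G, -∑ e ∈ A, x e ≤ h A := by
    intro A hA
    have a1 : ∑ i ∈ A, (2 - u i) ≤ h A + A.card := h2 A hA
    rw [hsum2] at a1
    show -∑ i ∈ A, (u i - 1) ≤ h A
    rw [hsum]
    linarith
  have hv : V G h x := by
    refine ⟨hle, hneg, ?_⟩
    intro e he
    have h5 := hle {e} (singleton_subset_iff.2 he)
    have h6 := hneg {e} (singleton_subset_iff.2 he)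
    have h7 := hh.up ∅ (empty_subset _) e he
    rw [hh.empty] at h7
    have h8 : h {e} ≤ 1 := by simpa using h7
    rw [sum_singleton] at h5 h6
    omega
  have hzero : ∀ a ∈ G, ∀ b ∈ G, ∀ c ∈ G, a ≠ b → x a = 0 → x b = 0 → x c = 0 →
      c = a ∨ c = b := by
    intro a ha b hb c hc hab h5 h6 h7
    by_contra hcon
    push Not at hcon
    have h8 : ({a, b, c} : Finset α) ⊆ G.filter (fun i => u i = 1) := by
      intro z hz
      simp only [mem_insert, mem_singleton] at hz
      have hx' : ∀ z, x z = 0 → u z = 1 := fun z hz => by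
        have : u z - 1 = 0 := hz
        linarith
      rcases hz with rfl | rfl | rfl
      · exact mem_filter.2 ⟨ha, hx' _ h5⟩
      · exact mem_filter.2 ⟨hb, hx' _ h6⟩
      · exact mem_filter.2 ⟨hc, hx' _ h7⟩
    have h9 := card_le_card h8
    have h10 : ({a, b, c} : Finset α).card = 3 := by
      rw [card_eq_three]
      exact ⟨a, b, c, hab, fun h => hcon.1 h.symm, fun h => hcon.2 h.symm, rfl⟩
    omega
  by_contra hno
  -- a pair of zeros which no tight set separates
  have key : ∀ y : α → ℤ, V G h y → ∃ a ∈ G, ∃ b ∈ G, a ≠ b ∧ y a = 0 ∧ y b = 0 ∧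
      ∀ X ⊆ G, ∑ e ∈ X, y e = h X → (a ∈ X ↔ b ∈ X) := by
    intro y hy
    by_contra hcon
    push Not at hcon
    apply hno
    refine ⟨y, sol_of hh hG hy.le hy.neg_le hy.val ?_⟩
    intro i hi j hj hij hi0 hj0
    obtain ⟨X, hX, h5, h6⟩ := hcon i hi j hj hij hi0 hj0
    refine ⟨X, hX, h5, ?_⟩
    tauto
  obtain ⟨a, ha, b, hb, hab, ha0, hb0, hL⟩ := key x hv
  obtain ⟨c, hc, d, hd, hcd, hc0, hd0, hM⟩ := key _ hv.neg
  have hc1 : x c = 0 := by
    have : -x c = 0 := hc0
    linarith
  have hd1 : x d = 0 := by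
    have : -x d = 0 := hd0
    linarith
  have hM' : ∀ X ⊆ G, -∑ e ∈ X, x e = h X → (a ∈ X ↔ b ∈ X) := by
    intro X hX h5
    have h6 := hM X hX (by rw [sum_neg_distrib]; exact h5)
    rcases hzero a ha b hb c hc hab ha0 hb0 hc1 with rfl | rfl
    · rcases hzero c ha b hb d hd hab ha0 hb0 hd1 with rfl | rfl
      · exact absurd rfl hcd
      · exact h6
    · rcases hzero a ha c hb d hd hab ha0 hb0 hd1 with rfl | rfl
      · exact h6.symm
      · exact absurd rfl hcd
  have hv' := hv.add hab (Or.inl ha0) (Or.inl hb0) (fun X hX h5 h6 => (hL X hX h5).1 h6)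
    (fun X hX h5 h6 => (hM' X hX h5).2 h6)
  obtain ⟨c, hc, d, hd, hcd, hc0, hd0, -⟩ := key _ hv'
  have hz : ∀ e ∈ G, x e + root a b e ≠ 0 := by
    intro e he h5
    by_cases hea : e = a
    · rw [hea, root_self hab, ha0] at h5
      norm_num at h5
    by_cases heb : e = b
    · rw [heb, root_self' hab, hb0] at h5
      norm_num at h5
    rw [root_ne hea heb, add_zero] at h5
    rcases hzero a ha b hb e he hab ha0 hb0 h5 with h6 | h6
    · exact hea h6
    · exact heb h6
  exact hz c hc hc0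

end Pool.Agent.P901b45z
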