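import Pool.Agent.Lib.P901b45k.Slice
import Pool.Agent.Lib.P901b45k.KeyEdge

/-!
The slice `x(A) = 0` for Frank's question on complementary vertices of integer 2-polymatroids
(MP_901b45_co): definitions and set function facts.
-/

set_option autoImplicit false

namespace Pool.Agent.P901b45z

open Finset Pool.Agent.P901b45e Pool.Agent.P901b45d Pool.Agent.P901b45k

variable {α : Type*} [DecidableEq α] {G : Finset α} {h : Finset α → ℤ}

/-- the slice of `-B(h)` by `x(A) = 0` is contained in `B(h)` -/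
structure Cut0 (G : Finset α) (h : Finset α → ℤ) (A : Finset α) : Prop where
  sub : A ⊆ G
  all : ∀ S ⊆ G, min (h (G \ S)) (min (h (G \ (S ∩ A)) + h (G \ (S ∪ A)))
    (h (G \ (S \ A)) + h (A \ S))) ≤ h S

/-- the maximum of `x(S)` on the slice, for `S ⊆ D` and `D = A` or `D = G \ A` -/
def nn (G : Finset α) (h : Finset α → ℤ) (D S : Finset α) : ℤ := min (h S) (h (G \ (D \ S)))

theorem Cut0.compl {A : Finset α} (hc : Cut0 G h A) : Cut0 G h (G \ A) := by
  refine ⟨sdiff_subset, ?_⟩
  intro S hS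
  have h1 := hc.all S hS
  have e1 : S ∩ (G \ A) = S \ A := by
    ext x
    simp only [mem_inter, mem_sdiff]
    constructor
    · rintro ⟨h1, h2, h3⟩; exact ⟨h1, h3⟩
    · rintro ⟨h1, h2⟩; exact ⟨h1, hS h1, h2⟩
  have e2 : G \ (S ∪ (G \ A)) = A \ S := by
    ext x
    simp only [mem_union, mem_sdiff, not_or, not_and, not_not]
    constructor
    · rintro ⟨h1, h2, h3⟩; exact ⟨h3 h1, h2⟩
    · rintro ⟨h1, h2⟩; exact ⟨hc.sub h1, h2, fun _ => h1⟩
  have e3 : S \ (G \ A) = S ∩ A := by
    ext x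
    simp only [mem_inter, mem_sdiff, not_and, not_not]
    constructor
    · rintro ⟨h1, h2⟩; exact ⟨h1, h2 (hS h1)⟩
    · rintro ⟨h1, h2⟩; exact ⟨h1, fun _ => h2⟩
  have e4 : (G \ A) \ S = G \ (S ∪ A) := by
    ext x
    simp only [mem_union, mem_sdiff, not_or]
    tauto
  rw [e1, e2, e3, e4]
  refine le_trans (le_of_eq ?_) h1
  rw [min_comm (h (G \ (S \ A)) + h (A \ S))]

section facts

variable {A : Finset α}

theorem nn_le1 (D S : Finset α) : nn G h D S ≤ h S := min_le_left _ _

theorem nn_le2 (D S : Finset α) : nn G h D S ≤ h (G \ (D \ S)) := min_le_right _ _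

theorem nn_cases (D S : Finset α) : nn G h D S = h S ∨ nn G h D S = h (G \ (D \ S)) := by
  unfold nn
  rcases min_choice (h S) (h (G \ (D \ S))) with h1 | h1
  · exact Or.inl h1
  · exact Or.inr h1

theorem sdiff_sdiff_of_sub {S D : Finset α} (hS : S ⊆ D) : D \ (D \ S) = S := by
  rw [sdiff_sdiff_right_self]
  exact inf_eq_right.2 hS

theorem nn_eq (hh : Sub G h) (hG : h G = 0) (hc : Cut0 G h A) {S : Finset α} (hS : S ⊆ A) :
    nn G h A (A \ S) = nn G h A S := by
  -- `m S = min (h (G \ S)) (h (A \ S))` is below `nn S`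
  have key : ∀ S ⊆ A, min (h (G \ S)) (h (A \ S)) ≤ nn G h A S := by
    intro S hS
    have hSG := hS.trans hc.sub
    refine le_min ?_ ?_
    · have h1 := hc.all S hSG
      have e1 : S ∩ A = S := inter_eq_left.2 hS
      have e2 : S ∪ A = A := union_eq_right.2 hS
      have e3 : S \ A = ∅ := sdiff_eq_empty_iff_subset.2 hS
      rw [e1, e2, e3, sdiff_empty, hG] at h1
      have h2 := hh.nonneg (G \ A) sdiff_subset
      rcases min_le_iff.1 h1 with h3 | h3
      · exact le_trans (min_le_left _ _) h3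
      · rcases min_le_iff.1 h3 with h3 | h3
        · exact le_trans (min_le_left _ _) (by linarith)
        · exact le_trans (min_le_right _ _) (by linarith)
    · have h1 := hc.all (G \ (A \ S)) sdiff_subset
      have e0 : G \ (G \ (A \ S)) = A \ S := sdiff_sdiff_of_sub (sdiff_subset.trans hc.sub)
      have e1 : (G \ (A \ S)) ∩ A = S := by
        ext x
        simp only [mem_inter, mem_sdiff, not_and, not_not]
        constructor
        · rintro ⟨⟨h1, h2⟩, h3⟩; exact h2 h3
        · intro h1; exact ⟨⟨hSG h1, fun _ => h1⟩, hS h1⟩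
      have e2 : (G \ (A \ S)) ∪ A = G := by
        ext x
        simp only [mem_union, mem_sdiff, not_and, not_not]
        constructor
        · rintro (h1 | h1)
          · exact h1.1
          · exact hc.sub h1
        · intro h1
          by_cases h2 : x ∈ A
          · exact Or.inr h2
          · exact Or.inl ⟨h1, fun h3 => absurd h3 h2⟩
      have e3 : A \ (G \ (A \ S)) = A \ S := by
        ext x
        have h7 := @hc.sub x
        simp only [mem_sdiff]
        tauto
      rw [e0, e1, e2, e3, Finset.sdiff_self, hh.empty] at h1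
      have h2 := hh.nonneg (G \ ((G \ (A \ S)) \ A)) sdiff_subset
      rcases min_le_iff.1 h1 with h3 | h3
      · exact le_trans (min_le_right _ _) h3
      · rcases min_le_iff.1 h3 with h3 | h3
        · exact le_trans (min_le_left _ _) (by linarith)
        · exact le_trans (min_le_right _ _) (by linarith)
  have e : ∀ S ⊆ A, min (h (G \ S)) (h (A \ S)) = nn G h A (A \ S) := by
    intro S hS
    unfold nn
    rw [sdiff_sdiff_of_sub hS, min_comm]
  have h1 := key S hS
  rw [e S hS] at h1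
  have h2 := key (A \ S) sdiff_subset
  rw [e (A \ S) sdiff_subset, sdiff_sdiff_of_sub hS] at h2
  exact le_antisymm h1 h2

theorem nn_sub (hh : Sub G h) {D : Finset α} (hD : D ⊆ G) (S T : Finset α) (hS : S ⊆ D)
    (hT : T ⊆ D) : nn G h D (S ∪ T) + nn G h D (S ∩ T) ≤ nn G h D S + nn G h D T := by
  have hSG := hS.trans hD
  have hTG := hT.trans hD
  have a1 := nn_le1 (G := G) (h := h) D (S ∪ T)
  have a2 := nn_le2 (G := G) (h := h) D (S ∪ T)
  have a3 := nn_le1 (G := G) (h := h) D (S ∩ T)
  have a4 := nn_le2 (G := G) (h := h) D (S ∩ T)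
  have hx : ∀ S ⊆ D, ∀ x, x ∈ G \ (D \ S) ↔ (x ∈ G ∧ (x ∈ D → x ∈ S)) := by
    intro S _ x
    simp only [mem_sdiff, not_and, not_not]
  rcases nn_cases (G := G) (h := h) D S with h1 | h1 <;>
    rcases nn_cases (G := G) (h := h) D T with h2 | h2
  · have h3 := hh.sub S hSG T hTG
    linarith
  · have h3 := hh.sub S hSG (G \ (D \ T)) sdiff_subset
    have e1 : S ∪ (G \ (D \ T)) = G \ (D \ (S ∪ T)) := by
      ext x
      simp only [mem_union, mem_sdiff, not_and, not_not]
      constructor
      · rintro (h4 | h4)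
        · exact ⟨hSG h4, fun _ => Or.inl h4⟩
        · exact ⟨h4.1, fun h5 => Or.inr (h4.2 h5)⟩
      · rintro ⟨h4, h5⟩
        by_cases h6 : x ∈ S
        · exact Or.inl h6
        · exact Or.inr ⟨h4, fun h7 => (h5 h7).resolve_left h6⟩
    have e2 : S ∩ (G \ (D \ T)) = S ∩ T := by
      ext x
      simp only [mem_inter, mem_sdiff, not_and, not_not]
      constructor
      · rintro ⟨h4, h5⟩; exact ⟨h4, h5.2 (hS h4)⟩
      · rintro ⟨h4, h5⟩; exact ⟨h4, hSG h4, fun _ => h5⟩
    rw [e1, e2] at h3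
    linarith
  · have h3 := hh.sub (G \ (D \ S)) sdiff_subset T hTG
    have e1 : (G \ (D \ S)) ∪ T = G \ (D \ (S ∪ T)) := by
      ext x
      simp only [mem_union, mem_sdiff, not_and, not_not]
      constructor
      · rintro (h4 | h4)
        · exact ⟨h4.1, fun h5 => Or.inl (h4.2 h5)⟩
        · exact ⟨hTG h4, fun _ => Or.inr h4⟩
      · rintro ⟨h4, h5⟩
        by_cases h6 : x ∈ T
        · exact Or.inr h6
        · exact Or.inl ⟨h4, fun h7 => (h5 h7).resolve_right h6⟩
    have e2 : (G \ (D \ S)) ∩ T = S ∩ T := by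
      ext x
      simp only [mem_inter, mem_sdiff, not_and, not_not]
      constructor
      · rintro ⟨h4, h5⟩; exact ⟨h4.2 (hT h5), h5⟩
      · rintro ⟨h4, h5⟩; exact ⟨⟨hTG h5, fun _ => h4⟩, h5⟩
    rw [e1, e2] at h3
    linarith
  · have h3 := hh.sub (G \ (D \ S)) sdiff_subset (G \ (D \ T)) sdiff_subset
    have e1 : (G \ (D \ S)) ∪ (G \ (D \ T)) = G \ (D \ (S ∪ T)) := by
      ext x
      simp only [mem_union, mem_sdiff, not_and, not_not]
      constructor
      · rintro (h4 | h4)
        · exact ⟨h4.1, fun h5 => Or.inl (h4.2 h5)⟩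
        · exact ⟨h4.1, fun h5 => Or.inr (h4.2 h5)⟩
      · rintro ⟨h4, h5⟩
        by_cases h6 : x ∈ D
        · rcases h5 h6 with h7 | h7
          · exact Or.inl ⟨h4, fun _ => h7⟩
          · exact Or.inr ⟨h4, fun _ => h7⟩
        · exact Or.inl ⟨h4, fun h7 => absurd h7 h6⟩
    have e2 : (G \ (D \ S)) ∩ (G \ (D \ T)) = G \ (D \ (S ∩ T)) := by
      ext x
      simp only [mem_inter, mem_sdiff]
      tauto
    rw [e1, e2] at h3
    linarith

theorem nn_empty (hh : Sub G h) (D : Finset α) : nn G h D ∅ = 0 := by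
  unfold nn
  rw [hh.empty, sdiff_empty]
  exact min_eq_left (hh.nonneg _ sdiff_subset)

theorem nn_top (hh : Sub G h) (hG : h G = 0) {D : Finset α} (hD : D ⊆ G) : nn G h D D = 0 := by
  unfold nn
  rw [Finset.sdiff_self, sdiff_empty, hG]
  exact min_eq_right (hh.nonneg _ hD)

theorem nn_single (hh : Sub G h) {D : Finset α} (hD : D ⊆ G) {a : α} (ha : a ∈ D) :
    nn G h D {a} ≤ 1 := by
  have h1 := nn_le1 (G := G) (h := h) D {a}
  have h2 := hh.up ∅ (empty_subset _) a (hD ha)
  rw [hh.empty] at h2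
  have h3 : h {a} ≤ 1 := by simpa using h2
  linarith

end facts

/-- the slice is a product -/
def Prod (G : Finset α) (h : Finset α → ℤ) (A : Finset α) : Prop :=
  ∀ S ⊆ A, ∀ R ⊆ G \ A, nn G h A S + nn G h (G \ A) R ≤ h (S ∪ R)

end Pool.Agent.P901b45z
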