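import Mathlib

/-!
# Greedy vectors along an order through a given flag
-/

namespace Pool.Agent.P901b45z

open Finset

variable {α : Type*} [DecidableEq α]

/-- Greedy extension of a vector from `D0` to `D1`. -/
theorem ext_flag {D : Finset α} {n : Finset α → ℤ}
    (hsub : ∀ X ⊆ D, ∀ Z ⊆ D, n (X ∪ Z) + n (X ∩ Z) ≤ n X + n Z) {D0 D1 : Finset α}
    (h01 : D0 ⊆ D1) (h1D : D1 ⊆ D) (x : α → ℤ) (hx : ∀ T ⊆ D0, ∑ e ∈ T, x e ≤ n T)
    (hxt : ∑ e ∈ D0, x e = n D0) :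
    ∃ y : α → ℤ, (∀ e ∈ D0, y e = x e) ∧ (∀ T ⊆ D1, ∑ e ∈ T, y e ≤ n T) ∧
      ∑ e ∈ D1, y e = n D1 ∧
      ∀ p ∈ D1, ∀ q ∈ D1, p ≠ q → ¬ (p ∈ D0 ∧ q ∈ D0) → ∃ T, D0 ⊆ T ∧ T ⊆ D1 ∧
        ∑ e ∈ T, y e = n T ∧ ((p ∈ T ∧ q ∉ T) ∨ (q ∈ T ∧ p ∉ T)) := by
  have key : ∀ F : Finset α, F ⊆ D → Disjoint D0 F →
      ∃ y : α → ℤ, (∀ e ∈ D0, y e = x e) ∧ (∀ T ⊆ D0 ∪ F, ∑ e ∈ T, y e ≤ n T) ∧
      ∑ e ∈ D0 ∪ F, y e = n (D0 ∪ F) ∧
      ∀ p ∈ D0 ∪ F, ∀ q ∈ D0 ∪ F, p ≠ q → ¬ (p ∈ D0 ∧ q ∈ D0) → ∃ T, D0 ⊆ T ∧ T ⊆ D0 ∪ F ∧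
        ∑ e ∈ T, y e = n T ∧ ((p ∈ T ∧ q ∉ T) ∨ (q ∈ T ∧ p ∉ T)) := by
    intro F
    induction F using Finset.induction_on with
    | empty =>
      intro _ _
      rw [union_empty]
      exact ⟨x, fun _ _ => rfl, hx, hxt, fun p hp q hq _ hn => absurd ⟨hp, hq⟩ hn⟩
    | insert c F hcF ih =>
      intro hFD hdis
      rw [insert_subset_iff] at hFD
      rw [disjoint_insert_right] at hdis
      obtain ⟨y, hy0, hy1, hy2, hy3⟩ := ih hFD.2 hdis.2
      have hD0D : D0 ⊆ D := h01.trans h1D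
      obtain ⟨W, hW⟩ : ∃ W, W = D0 ∪ F := ⟨_, rfl⟩
      rw [← hW] at hy1 hy2 hy3
      have hWD : W ⊆ D := by rw [hW]; exact union_subset hD0D hFD.2
      have hcW : c ∉ W := by rw [hW, mem_union, not_or]; exact ⟨hdis.1, hcF⟩
      have hWi : D0 ∪ insert c F = insert c W := by rw [hW, union_insert]
      rw [hWi]
      obtain ⟨z, hz⟩ : ∃ z : α → ℤ, z = fun e => if e = c then n (insert c W) - n W else y e :=
        ⟨_, rfl⟩
      have hzc : z c = n (insert c W) - n W := by rw [hz]; simp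
      have hzy : ∀ e, e ≠ c → z e = y e := by intro e he; rw [hz]; simp [he]
      have hzs : ∀ T : Finset α, c ∉ T → ∑ e ∈ T, z e = ∑ e ∈ T, y e := by
        intro T hT
        exact sum_congr rfl fun e he => hzy e (fun h => hT (h ▸ he))
      have hziW : ∑ e ∈ insert c W, z e = n (insert c W) := by
        rw [sum_insert hcW, hzs W hcW, hy2, hzc]; ring
      refine ⟨z, ?_, ?_, hziW, ?_⟩
      · intro e he
        rw [hzy e (fun h => hdis.1 (h ▸ he)), hy0 e he]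
      · intro T hT
        by_cases hc : c ∈ T
        · have hT0 : T.erase c ⊆ W := by
            intro e he
            rw [mem_erase] at he
            exact (mem_insert.1 (hT he.2)).resolve_left he.1
          have hTD : T ⊆ D := hT.trans (insert_subset hFD.1 hWD)
          have h1 : ∑ e ∈ T, z e = ∑ e ∈ T.erase c, z e + z c := by
            rw [sum_erase_add T z hc]
          rw [h1, hzs _ (notMem_erase c T), hzc]
          have h2 := hy1 _ hT0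
          have h3 := hsub T hTD W hWD
          have e1 : T ∪ W = insert c W := by
            apply Subset.antisymm
            · exact union_subset hT (subset_insert _ _)
            · exact insert_subset (mem_union_left _ hc) subset_union_right
          have e2 : T ∩ W = T.erase c := by
            ext e
            simp only [mem_inter, mem_erase]
            constructor
            · rintro ⟨h, h'⟩
              exact ⟨fun h4 => hcW (h4 ▸ h'), h⟩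
            · rintro ⟨h, h'⟩
              exact ⟨h', (mem_insert.1 (hT h')).resolve_left h⟩
          rw [e1, e2] at h3
          linarith
        · rw [hzs T hc]
          exact hy1 T fun e he => (mem_insert.1 (hT he)).resolve_left (fun h => hc (h ▸ he))
      · have hD0W : D0 ⊆ W := by rw [hW]; exact subset_union_left
        have hWt : ∑ e ∈ W, z e = n W := by rw [hzs W hcW, hy2]
        intro p hp q hq hpq hn
        by_cases hpc : p = c
        · have hqW : q ∈ W := (mem_insert.1 hq).resolve_left (fun h => hpq (hpc.trans h.symm))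
          exact ⟨W, hD0W, subset_insert _ _, hWt, Or.inr ⟨hqW, by rw [hpc]; exact hcW⟩⟩
        · by_cases hqc : q = c
          · have hpW : p ∈ W := (mem_insert.1 hp).resolve_left hpc
            exact ⟨W, hD0W, subset_insert _ _, hWt, Or.inl ⟨hpW, by rw [hqc]; exact hcW⟩⟩
          · have hpW : p ∈ W := (mem_insert.1 hp).resolve_left hpc
            have hqW : q ∈ W := (mem_insert.1 hq).resolve_left hqc
            obtain ⟨T, hT1, hT2, hT3, hT4⟩ := hy3 p hpW q hqW hpq hn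
            exact ⟨T, hT1, hT2.trans (subset_insert _ _),
              by rw [hzs T (fun h => hcW (hT2 h))]; exact hT3, hT4⟩
  have h := key (D1 \ D0) (sdiff_subset.trans h1D) disjoint_sdiff
  rwa [union_sdiff_of_subset h01] at h

/-- greedy vector along an order through `S`, then `a` -/
theorem exists_flag {D S : Finset α} {n : Finset α → ℤ} {a : α} (h0 : n ∅ = 0)
    (hsub : ∀ X ⊆ D, ∀ Z ⊆ D, n (X ∪ Z) + n (X ∩ Z) ≤ n X + n Z)
    (hS : S ⊆ D) (ha : a ∈ D) (_haS : a ∉ S) :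
    ∃ x : α → ℤ, (∀ T ⊆ D, ∑ e ∈ T, x e ≤ n T) ∧ ∑ e ∈ S, x e = n S ∧
      ∑ e ∈ insert a S, x e = n (insert a S) ∧ ∑ e ∈ D, x e = n D ∧
      ∀ p ∈ D, ∀ q ∈ D, p ≠ q → ∃ T ⊆ D, ∑ e ∈ T, x e = n T ∧ (T ⊆ S ∨ insert a S ⊆ T) ∧
        ((p ∈ T ∧ q ∉ T) ∨ (q ∈ T ∧ p ∉ T)) := by
  have haD : insert a S ⊆ D := insert_subset ha hS
  obtain ⟨x, -, hx1, hx2, hx3⟩ := ext_flag hsub (empty_subset S) hS (fun _ => (0 : ℤ))
    (fun T hT => by rw [subset_empty.1 hT, h0]; simp) (by rw [h0]; simp)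
  obtain ⟨y, hy0, hy1, hy2, hy3⟩ := ext_flag hsub (subset_insert a S) haD x hx1 hx2
  obtain ⟨z, hz0, hz1, hz2, hz3⟩ := ext_flag hsub haD (Subset.refl D) y hy1 hy2
  have hyS : ∀ T ⊆ S, ∑ e ∈ T, y e = ∑ e ∈ T, x e := fun T hT =>
    sum_congr rfl fun e he => hy0 e (hT he)
  have hzS : ∀ T ⊆ insert a S, ∑ e ∈ T, z e = ∑ e ∈ T, y e := fun T hT =>
    sum_congr rfl fun e he => hz0 e (hT he)
  refine ⟨z, hz1, ?_, ?_, hz2, ?_⟩
  · rw [hzS S (subset_insert _ _), hyS S (Subset.refl _), hx2]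
  · rw [hzS _ (Subset.refl _), hy2]
  · intro p hp q hq hpq
    by_cases h1 : p ∈ insert a S ∧ q ∈ insert a S
    · by_cases h2 : p ∈ S ∧ q ∈ S
      · obtain ⟨T, -, hT2, hT3, hT4⟩ := hx3 p h2.1 q h2.2 hpq (by simp)
        exact ⟨T, hT2.trans hS, by rw [hzS T (hT2.trans (subset_insert _ _)), hyS T hT2, hT3],
          Or.inl hT2, hT4⟩
      · obtain ⟨T, hT1, hT2, hT3, hT4⟩ := hy3 p h1.1 q h1.2 hpq h2
        refine ⟨T, hT2.trans haD, by rw [hzS T hT2, hT3], ?_, hT4⟩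
        by_cases haT : a ∈ T
        · right; exact insert_subset haT hT1
        · left
          intro e he
          exact (mem_insert.1 (hT2 he)).resolve_left (fun h => haT (h ▸ he))
    · obtain ⟨T, hT1, hT2, hT3, hT4⟩ := hz3 p hp q hq hpq h1
      exact ⟨T, hT2, hT3, Or.inr hT1, hT4⟩

/-- greedy vector along an order through `S` -/
theorem exists_flag1 {D S : Finset α} {n : Finset α → ℤ} (h0 : n ∅ = 0)
    (hsub : ∀ X ⊆ D, ∀ Z ⊆ D, n (X ∪ Z) + n (X ∩ Z) ≤ n X + n Z) (hS : S ⊆ D) :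
    ∃ x : α → ℤ, (∀ T ⊆ D, ∑ e ∈ T, x e ≤ n T) ∧ ∑ e ∈ S, x e = n S ∧
      ∑ e ∈ D, x e = n D ∧
      ∀ p ∈ D, ∀ q ∈ D, p ≠ q → ∃ T ⊆ D, ∑ e ∈ T, x e = n T ∧ (T ⊆ S ∨ S ⊆ T) ∧
        ((p ∈ T ∧ q ∉ T) ∨ (q ∈ T ∧ p ∉ T)) := by
  obtain ⟨x, -, hx1, hx2, hx3⟩ := ext_flag hsub (empty_subset S) hS (fun _ => (0 : ℤ))
    (fun T hT => by rw [subset_empty.1 hT, h0]; simp) (by rw [h0]; simp)
  obtain ⟨z, hz0, hz1, hz2, hz3⟩ := ext_flag hsub hS (Subset.refl D) x hx1 hx2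
  have hzS : ∀ T ⊆ S, ∑ e ∈ T, z e = ∑ e ∈ T, x e := fun T hT =>
    sum_congr rfl fun e he => hz0 e (hT he)
  refine ⟨z, hz1, ?_, hz2, ?_⟩
  · rw [hzS S (Subset.refl _), hx2]
  · intro p hp q hq hpq
    by_cases h2 : p ∈ S ∧ q ∈ S
    · obtain ⟨T, -, hT2, hT3, hT4⟩ := hx3 p h2.1 q h2.2 hpq (by simp)
      exact ⟨T, hT2.trans hS, by rw [hzS T hT2, hT3], Or.inl hT2, hT4⟩
    · obtain ⟨T, hT1, hT2, hT3, hT4⟩ := hz3 p hp q hq hpq h2
      exact ⟨T, hT2, hT3, Or.inr hT1, hT4⟩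

end Pool.Agent.P901b45z
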